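import Mathlib

namespace Pool.Agent.Lib.MP_58ead2_co

/-- The `(m:b)` achievement game on the board `V` with winning sets `W`.
`MakerWins V W m b M B t`: in the position where Maker owns `M`, Breaker owns `B` and it is
Maker's turn iff `t = true`, Maker has a strategy forcing that, when the board is full, he owns
every point of some winning set.  A move claims `m` (resp. `b`) unclaimed points, or all of them
if fewer are left. -/
inductive MakerWins {α : Type} [DecidableEq α] (V : Finset α) (W : Set (Finset α)) (m b : ℕ) :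
    Finset α → Finset α → Bool → Prop
  | full (M B : Finset α) (t : Bool) :
      V \ (M ∪ B) = ∅ → (∃ A ∈ W, A ⊆ M) → MakerWins V W m b M B t
  | maker (M B S : Finset α) :
      V \ (M ∪ B) ≠ ∅ → S ⊆ V \ (M ∪ B) → S.card = min m (V \ (M ∪ B)).card →
      MakerWins V W m b (M ∪ S) B false → MakerWins V W m b M B true
  | breaker (M B : Finset α) :
      V \ (M ∪ B) ≠ ∅ →
      (∀ S : Finset α, S ⊆ V \ (M ∪ B) → S.card = min b (V \ (M ∪ B)).card →
        MakerWins V W m b M (B ∪ S) true) →
      MakerWins V W m b M B false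

/-- The board `{1, …, N}²`. -/
noncomputable def board (N : ℕ) : Finset (ℤ × ℤ) := Finset.Icc (1 : ℤ) N ×ˢ Finset.Icc (1 : ℤ) N

/-- The `q × q` parallelogram lattices `{u + k v + l w : 0 ≤ k, l ≤ q - 1}` contained in the
board, `v, w` linearly independent. -/
def parallelograms (N q : ℕ) : Set (Finset (ℤ × ℤ)) :=
  {A | A ⊆ board N ∧ ∃ u v w : ℤ × ℤ, LinearIndependent ℤ ![v, w] ∧
    A = (Finset.range q ×ˢ Finset.range q).image (fun p : ℕ × ℕ => u + p.1 • v + p.2 • w)}

/-- `A(N; parallelogram; m:b)`: the largest `q ≥ 2` for which Maker, moving first on the empty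
board, wins. -/
noncomputable def achievementNumber (N m b : ℕ) : ℕ :=
  sSup {q : ℕ | 2 ≤ q ∧ MakerWins (board N) (parallelograms N q) m b ∅ ∅ true}

end Pool.Agent.Lib.MP_58ead2_co
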