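import Mathlib

namespace Pool.Agent.Lib.MP_58ead2_co.G

/-- The board `{1, …, N}²`. -/
noncomputable def board (N : ℕ) : Finset (ℤ × ℤ) := Finset.Icc (1 : ℤ) N ×ˢ Finset.Icc (1 : ℤ) N

/-- The `q × q` lattices `{u + k v + l w : 0 ≤ k, l ≤ q - 1}` inside the board, `v, w` linearly
independent: all of them (parallelograms) if `par = true`, those with `|det (v, w)| = 1`
(area-one lattices) if `par = false`. -/
def lattices (par : Bool) (N q : ℕ) : Set (Finset (ℤ × ℤ)) :=
  {A | A ⊆ board N ∧ ∃ u v w : ℤ × ℤ, LinearIndependent ℤ ![v, w] ∧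
    (par = false → |v.1 * w.2 - v.2 * w.1| = 1) ∧
    A = (Finset.range q ×ˢ Finset.range q).image (fun p : ℕ × ℕ => u + p.1 • v + p.2 • w)}

/-- The conjectured value: `2 √(log_c N)` for parallelograms, `√(2 log_c N)` for area-one
lattices. -/
noncomputable def conj (par : Bool) (c : ℝ) (N : ℕ) : ℝ :=
  if par = true then 2 * √(Real.logb c N) else √(2 * Real.logb c N)

end Pool.Agent.Lib.MP_58ead2_co.G
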