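import Mathlib
import Pool.Agent.Lib.MP_58ead2_co.GLat

namespace Pool.Agent.Lib.MP_58ead2_co.G

/-- The `(m:b)` achievement game on the board `V` with winning sets `W`.
`MakerWins V W m b M B t`: in the position where Maker owns `M`, Breaker owns `B` and it is
Maker's turn iff `t = true`, Maker can force that, when the board is full, he owns every point
of some winning set.  A move claims `m` (resp. `b`) unclaimed points, or all of them if fewer
are left. -/
inductive MakerWins {α : Type} [DecidableEq α] (V : Finset α) (W : Set (Finset α)) (m b : ℕ) :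
    Finset α → Finset α → Bool → Prop
  | full (M B : Finset α) (t : Bool) :
      V \ (M ∪ B) = ∅ → (∃ A ∈ W, A ⊆ M) → MakerWins V W m b M B t
  | maker (M B S : Finset α) :
      V \ (M ∪ B) ≠ ∅ → S ⊆ V \ (M ∪ B) → S.card = min m (V \ (M ∪ B)).card →
      MakerWins V W m b (M ∪ S) B false → MakerWins V W m b M B true
  | breaker (M B : Finset α) :
      V \ (M ∪ B) ≠ ∅ →
      (∀ S : Finset α, S ⊆ V \ (M ∪ B) → S.card = min b (V \ (M ∪ B)).card →
        MakerWins V W m b M (B ∪ S) true) →
      MakerWins V W m b M B false

/-- `A(N; X; m:b)`: the largest `q ≥ 2` for which Maker, moving first on the empty board,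
wins. -/
noncomputable def achieve (par : Bool) (N m b : ℕ) : ℕ :=
  sSup {q : ℕ | 2 ≤ q ∧ MakerWins (board N) (lattices par N q) m b ∅ ∅ true}

end Pool.Agent.Lib.MP_58ead2_co.G
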