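import Mathlib

namespace Pool.Agent.Lib.MP_58ead2_co.G

open Finset

/-- A hypergraph whose edges are unions of boxes and which is linear on boxes. -/
structure Sys (α β ι : Type) [DecidableEq α] [DecidableEq β] where
  V : Finset α
  π : α → β
  F : Finset ι
  E : ι → Finset α
  r : ℕ
  J : ℕ
  sub : ∀ e ∈ F, E e ⊆ V
  sat : ∀ e ∈ F, ∀ x ∈ E e, ∀ y ∈ V, π y = π x → y ∈ E e
  lin : ∀ e ∈ F, ∀ e' ∈ F, ∀ x y, x ∈ E e → y ∈ E e → x ∈ E e' → y ∈ E e' → π x ≠ π y → e = e'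
  box : ∀ c, (V.filter (fun y => π y = c)).card ≤ r
  img : ∀ e ∈ F, ((E e).image π).card ≤ J
  two : ∀ e ∈ F, ∀ x ∈ E e, ∃ y ∈ E e, π x ≠ π y

namespace Sys

variable {α β ι : Type} [DecidableEq α] [DecidableEq β] (H : Sys α β ι)

def bx (c : β) : Finset α := H.V.filter (fun y => H.π y = c)

lemma mem_bx {c : β} {y : α} : y ∈ H.bx c ↔ y ∈ H.V ∧ H.π y = c := by simp [bx]

noncomputable def pot (f : ι → ℝ) (B : Finset α) : ℝ :=
  ∑ e ∈ H.F, if Disjoint (H.E e) B then f e else 0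

noncomputable def wt (f : ι → ℝ) (B : Finset α) (x : α) : ℝ :=
  ∑ e ∈ H.F, if Disjoint (H.E e) B ∧ x ∈ H.E e then f e else 0

lemma wt_nonneg {f : ι → ℝ} (hf : ∀ e ∈ H.F, 0 ≤ f e) (B : Finset α) (x : α) :
    0 ≤ H.wt f B x := by
  apply Finset.sum_nonneg
  intro e he
  split_ifs
  · exact hf e he
  · exact le_rfl

lemma wt_anti {f : ι → ℝ} (hf : ∀ e ∈ H.F, 0 ≤ f e) (B T : Finset α) (x : α) :
    H.wt f (B ∪ T) x ≤ H.wt f B x := by
  apply Finset.sum_le_sum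
  intro e he
  have := hf e he
  by_cases h1 : Disjoint (H.E e) (B ∪ T) ∧ x ∈ H.E e
  · rw [if_pos h1, if_pos ⟨(Finset.disjoint_union_right.1 h1.1).1, h1.2⟩]
  · rw [if_neg h1]
    split_ifs
    · exact this
    · exact le_rfl

lemma pot_mono {f f' : ι → ℝ} (h : ∀ e ∈ H.F, f e ≤ f' e) (B : Finset α) :
    H.pot f B ≤ H.pot f' B := by
  apply Finset.sum_le_sum
  intro e he
  split_ifs
  · exact h e he
  · exact le_rfl

lemma pot_kill {f : ι → ℝ} (hf : ∀ e ∈ H.F, 0 ≤ f e) (B T : Finset α) :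
    H.pot f B - ∑ y ∈ T, H.wt f B y ≤ H.pot f (B ∪ T) := by
  unfold pot wt
  rw [Finset.sum_comm, ← Finset.sum_sub_distrib]
  apply Finset.sum_le_sum
  intro e he
  have h0 := hf e he
  have hs : 0 ≤ ∑ y ∈ T, if Disjoint (H.E e) B ∧ y ∈ H.E e then f e else 0 := by
    apply Finset.sum_nonneg
    intro y _
    split_ifs
    · exact h0
    · exact le_rfl
  by_cases h1 : Disjoint (H.E e) B
  · by_cases h2 : Disjoint (H.E e) T
    · rw [if_pos h1, if_pos (Finset.disjoint_union_right.2 ⟨h1, h2⟩)]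
      linarith
    · rw [if_pos h1, if_neg (fun h => h2 (Finset.disjoint_union_right.1 h).2)]
      obtain ⟨y, hy1, hy2⟩ := Finset.not_disjoint_iff.1 h2
      have : (if Disjoint (H.E e) B ∧ y ∈ H.E e then f e else 0) ≤
          ∑ y ∈ T, if Disjoint (H.E e) B ∧ y ∈ H.E e then f e else 0 := by
        apply Finset.single_le_sum (f := fun y => if Disjoint (H.E e) B ∧ y ∈ H.E e then f e else 0)
          _ hy2
        intro y _
        split_ifs
        · exact h0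
        · exact le_rfl
      rw [if_pos ⟨h1, hy1⟩] at this
      linarith
  · rw [if_neg h1, if_neg (fun h => h1 (Finset.disjoint_union_right.1 h).1)]
    linarith

lemma cod_le {x y : α} (h : H.π x ≠ H.π y) {d : ℝ} (hd : 0 ≤ d) :
    (∑ e ∈ H.F, if x ∈ H.E e ∧ y ∈ H.E e then d else 0) ≤ d := by
  classical
  rw [← Finset.sum_filter, Finset.sum_const, nsmul_eq_mul]
  have : (H.F.filter (fun e => x ∈ H.E e ∧ y ∈ H.E e)).card ≤ 1 := by
    apply Finset.card_le_one.2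
    intro e he e' he'
    rw [Finset.mem_filter] at he he'
    exact H.lin e he.1 e' he'.1 x y he.2.1 he.2.2 he'.2.1 he'.2.2 h
  have : ((H.F.filter (fun e => x ∈ H.E e ∧ y ∈ H.E e)).card : ℝ) ≤ 1 := by exact_mod_cast this
  nlinarith

lemma wt_up {f f' : ι → ℝ} {x y : α} {d : ℝ} (hd : 0 ≤ d) (h : H.π x ≠ H.π y)
    (h1 : ∀ e ∈ H.F, x ∉ H.E e → f' e ≤ f e) (h2 : ∀ e ∈ H.F, f' e ≤ f e + d) (B : Finset α) :
    H.wt f' B y ≤ H.wt f B y + d := by
  have := H.cod_le h hd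
  refine le_trans ?_ (add_le_add_right this _)
  unfold wt
  rw [← Finset.sum_add_distrib]
  apply Finset.sum_le_sum
  intro e he
  by_cases h3 : Disjoint (H.E e) B ∧ y ∈ H.E e
  · rw [if_pos h3, if_pos h3]
    by_cases h4 : x ∈ H.E e
    · rw [if_pos ⟨h4, h3.2⟩]; exact h2 e he
    · rw [if_neg (fun h => h4 h.1)]; linarith [h1 e he h4]
  · rw [if_neg h3, if_neg h3]
    split_ifs
    · linarith
    · linarith

lemma wt_down {f : ι → ℝ} (hf : ∀ e ∈ H.F, 0 ≤ f e) (hf1 : ∀ e ∈ H.F, f e ≤ 1) (B S : Finset α)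
    {y : α} (h : ∀ s ∈ S, H.π s ≠ H.π y) : H.wt f B y - S.card ≤ H.wt f (B ∪ S) y := by
  have h1 : (∑ s ∈ S, ∑ e ∈ H.F, if s ∈ H.E e ∧ y ∈ H.E e then (1 : ℝ) else 0) ≤ S.card := by
    have := Finset.sum_le_card_nsmul S
      (fun s => ∑ e ∈ H.F, if s ∈ H.E e ∧ y ∈ H.E e then (1 : ℝ) else 0) 1
      (fun s hs => H.cod_le (h s hs) zero_le_one)
    simpa using this
  rw [Finset.sum_comm] at h1
  refine le_trans (sub_le_sub_left h1 _) ?_
  unfold wt
  rw [← Finset.sum_sub_distrib]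
  apply Finset.sum_le_sum
  intro e he
  have hs : 0 ≤ ∑ s ∈ S, if s ∈ H.E e ∧ y ∈ H.E e then (1 : ℝ) else 0 := by
    apply Finset.sum_nonneg
    intro s _
    split_ifs <;> norm_num
  have h0 := hf e he
  by_cases h3 : Disjoint (H.E e) B ∧ y ∈ H.E e
  · rw [if_pos h3]
    by_cases h2 : Disjoint (H.E e) S
    · rw [if_pos ⟨Finset.disjoint_union_right.2 ⟨h3.1, h2⟩, h3.2⟩]
      linarith
    · rw [if_neg (fun h => h2 (Finset.disjoint_union_right.1 h.1).2)]
      obtain ⟨s, hs1, hs2⟩ := Finset.not_disjoint_iff.1 h2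
      have : (if s ∈ H.E e ∧ y ∈ H.E e then (1 : ℝ) else 0) ≤
          ∑ s ∈ S, if s ∈ H.E e ∧ y ∈ H.E e then (1 : ℝ) else 0 := by
        apply Finset.single_le_sum (f := fun s => if s ∈ H.E e ∧ y ∈ H.E e then (1 : ℝ) else 0)
          _ hs2
        intro s _
        split_ifs <;> norm_num
      rw [if_pos ⟨hs1, h3.2⟩] at this
      linarith [hf1 e he]
  · rw [if_neg h3]
    split_ifs
    · linarith
    · linarith

lemma wt_le_card {f : ι → ℝ} (hf1 : ∀ e ∈ H.F, f e ≤ 1) (B : Finset α) (x : α) :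
    H.wt f B x ≤ H.V.card := by
  classical
  have h1 : (∑ y ∈ H.V.filter (fun y => H.π x ≠ H.π y),
      ∑ e ∈ H.F, if x ∈ H.E e ∧ y ∈ H.E e then (1 : ℝ) else 0) ≤ H.V.card := by
    have := Finset.sum_le_card_nsmul (H.V.filter (fun y => H.π x ≠ H.π y))
      (fun y => ∑ e ∈ H.F, if x ∈ H.E e ∧ y ∈ H.E e then (1 : ℝ) else 0) 1
      (fun y hy => H.cod_le (Finset.mem_filter.1 hy).2 zero_le_one)
    refine this.trans ?_
    rw [nsmul_eq_mul, mul_one]
    exact_mod_cast Finset.card_filter_le _ _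
  rw [Finset.sum_comm] at h1
  refine le_trans ?_ h1
  apply Finset.sum_le_sum
  intro e he
  have hs : ∀ y ∈ H.V.filter (fun y => H.π x ≠ H.π y),
      0 ≤ if x ∈ H.E e ∧ y ∈ H.E e then (1 : ℝ) else 0 := by
    intro s _
    split_ifs <;> norm_num
  by_cases h3 : Disjoint (H.E e) B ∧ x ∈ H.E e
  · rw [if_pos h3]
    obtain ⟨y, hy, hne⟩ := H.two e he x h3.2
    have := Finset.single_le_sum hs (Finset.mem_filter.2 ⟨H.sub e he hy, hne⟩)
    rw [if_pos ⟨h3.2, hy⟩] at this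
    linarith [hf1 e he]
  · rw [if_neg h3]
    exact Finset.sum_nonneg hs

lemma exists_alive {f : ι → ℝ} {M B : Finset α} (h : 0 < H.pot f B) (hfull : H.V \ (M ∪ B) = ∅) :
    ∃ e ∈ H.F, H.E e ⊆ M := by
  by_contra hcon
  push Not at hcon
  have : H.pot f B = 0 := by
    apply Finset.sum_eq_zero
    intro e he
    rw [if_neg]
    intro hd
    apply hcon e he
    intro x hx
    by_contra hxM
    have : x ∈ H.V \ (M ∪ B) := by
      rw [Finset.mem_sdiff, Finset.mem_union]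
      exact ⟨H.sub e he hx, fun h => h.elim hxM (Finset.disjoint_left.1 hd hx)⟩
    rw [hfull] at this
    simp at this
  linarith

end Sys

end Pool.Agent.Lib.MP_58ead2_co.G
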