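import Mathlib
import Pool.Agent.Lib.MP_58ead2_co.GSys
import Pool.Agent.Lib.MP_58ead2_co.GLat

namespace Pool.Agent.Lib.MP_58ead2_co.G

open Finset

def pt (q u : ℤ) (e : (ℤ × ℤ) × (ℤ × ℤ)) (k l : ℤ) : ℤ × ℤ :=
  (k + q * (e.1.1 + (k - l * u) * e.2.1), l + q * (e.1.2 + (k - l * u) * e.2.2))

def lat (q : ℕ) (u : ℤ) (e : (ℤ × ℤ) × (ℤ × ℤ)) : Finset (ℤ × ℤ) :=
  (Finset.range q ×ˢ Finset.range q).image (fun p : ℕ × ℕ =>
    ((q * e.1.1, q * e.1.2) : ℤ × ℤ) + p.1 • ((1 + q * e.2.1, q * e.2.2) : ℤ × ℤ) +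
      p.2 • ((-(u * q * e.2.1), 1 - u * q * e.2.2) : ℤ × ℤ))

lemma mem_lat {q : ℕ} {u : ℤ} {e : (ℤ × ℤ) × (ℤ × ℤ)} {y : ℤ × ℤ} :
    y ∈ lat q u e ↔ ∃ k l : ℤ, 0 ≤ k ∧ k < q ∧ 0 ≤ l ∧ l < q ∧ y = pt q u e k l := by
  unfold lat
  rw [Finset.mem_image]
  constructor
  · rintro ⟨p, hp, rfl⟩
    simp only [Finset.mem_product, Finset.mem_range] at hp
    refine ⟨p.1, p.2, by positivity, by exact_mod_cast hp.1, by positivity,
      by exact_mod_cast hp.2, ?_⟩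
    ext <;> simp [pt] <;> ring
  · rintro ⟨k, l, h1, h2, h3, h4, rfl⟩
    lift k to ℕ using h1
    lift l to ℕ using h3
    refine ⟨(k, l), ?_, ?_⟩
    · simp only [Finset.mem_product, Finset.mem_range]
      exact ⟨by exact_mod_cast h2, by exact_mod_cast h4⟩
    · ext <;> simp [pt] <;> ring

def lab (q u : ℤ) (y : ℤ × ℤ) : (ℤ × ℤ) × (ℤ × ℤ) :=
  ((y.1 - y.1 % q / u * u, y.2 - y.1 % q / u), (y.1 % q % u, y.2 % q - y.1 % q / u))

lemma pt_mod {q u : ℤ} {e : (ℤ × ℤ) × (ℤ × ℤ)} {k l : ℤ} (h1 : 0 ≤ k) (h2 : k < q) (h3 : 0 ≤ l)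
    (h4 : l < q) : (pt q u e k l).1 % q = k ∧ (pt q u e k l).2 % q = l := by
  unfold pt
  simp only [Int.add_mul_emod_self_left]
  exact ⟨Int.emod_eq_of_lt h1 h2, Int.emod_eq_of_lt h3 h4⟩

def lab2 (q u : ℤ) (e : (ℤ × ℤ) × (ℤ × ℤ)) (c : ℤ × ℤ) : (ℤ × ℤ) × (ℤ × ℤ) :=
  (pt q u e c.1 c.2, c)

lemma lab_pt {q u : ℤ} {e : (ℤ × ℤ) × (ℤ × ℤ)} {k l : ℤ} (h1 : 0 ≤ k) (h2 : k < q) (h3 : 0 ≤ l)
    (h4 : l < q) : lab q u (pt q u e k l) = lab2 q u e (k % u, l - k / u) := by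
  obtain ⟨e1, e2⟩ := pt_mod (u := u) (e := e) h1 h2 h3 h4
  unfold lab lab2
  rw [e1, e2]
  have : k % u = k - u * (k / u) := Int.emod_def k u
  simp only [pt, this]
  ext <;> simp only <;> ring

lemma fam_sat {q : ℕ} (hq : 0 < q) {u : ℤ} {e : (ℤ × ℤ) × (ℤ × ℤ)} {x y : ℤ × ℤ}
    (hx : x ∈ lat q u e) (h : lab q u y = lab q u x) : y ∈ lat q u e := by
  obtain ⟨k, l, h1, h2, h3, h4, rfl⟩ := mem_lat.1 hx
  rw [lab_pt h1 h2 h3 h4] at h
  have hq' : (0 : ℤ) < q := by exact_mod_cast hq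
  refine mem_lat.2 ⟨y.1 % q, y.2 % q, Int.emod_nonneg _ hq'.ne', Int.emod_lt_of_pos _ hq',
    Int.emod_nonneg _ hq'.ne', Int.emod_lt_of_pos _ hq', ?_⟩
  simp only [lab, lab2, pt, Prod.mk.injEq] at h
  obtain ⟨⟨a1, a2⟩, a3, a4⟩ := h
  have b1 : y.1 % q % u = y.1 % q - u * (y.1 % q / u) := Int.emod_def _ u
  generalize y.1 % q / u = t at *
  generalize k % u = ρ at *
  generalize l - k / u = s at *
  have c1 : y.1 % q = ρ + u * t := by linarith
  have c2 : y.2 % q = s + t := by linarith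
  ext
  · simp only [pt]
    rw [c1, c2]
    linear_combination a1
  · simp only [pt]
    rw [c1, c2]
    linear_combination a2

lemma fam_lin {q : ℕ} (hq : 0 < q) {u : ℤ} (hu : 0 < u) {e e' : (ℤ × ℤ) × (ℤ × ℤ)} {x y : ℤ × ℤ}
    (hx : x ∈ lat q u e) (hy : y ∈ lat q u e) (hx' : x ∈ lat q u e') (hy' : y ∈ lat q u e')
    (h : lab q u x ≠ lab q u y) : e = e' := by
  obtain ⟨k, l, h1, h2, h3, h4, hx1⟩ := mem_lat.1 hx
  obtain ⟨k2, l2, g1, g2, g3, g4, hx2⟩ := mem_lat.1 hx'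
  obtain ⟨k', l', i1, i2, i3, i4, hy1⟩ := mem_lat.1 hy
  obtain ⟨k3, l3, j1, j2, j3, j4, hy2⟩ := mem_lat.1 hy'
  have a1 := pt_mod (u := u) (e := e) h1 h2 h3 h4
  have a2 := pt_mod (u := u) (e := e') g1 g2 g3 g4
  have a3 := pt_mod (u := u) (e := e) i1 i2 i3 i4
  have a4 := pt_mod (u := u) (e := e') j1 j2 j3 j4
  rw [← hx1] at a1
  rw [← hx2] at a2
  rw [← hy1] at a3
  rw [← hy2] at a4
  have ek : k2 = k := by rw [← a1.1, ← a2.1]
  have el : l2 = l := by rw [← a1.2, ← a2.2]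
  have ek' : k3 = k' := by rw [← a3.1, ← a4.1]
  have el' : l3 = l' := by rw [← a3.2, ← a4.2]
  subst ek el ek' el'
  have hne : k2 - l2 * u ≠ k3 - l3 * u := by
    intro hh
    apply h
    rw [hx1, hy1, lab_pt h1 h2 h3 h4, lab_pt i1 i2 i3 i4]
    have b1 : k2 = k3 + u * (l2 - l3) := by linarith
    have b2 : k2 % u = k3 % u := by rw [b1, Int.add_mul_emod_self_left]
    have b3 : k2 / u = k3 / u + (l2 - l3) := by
      rw [b1, Int.add_mul_ediv_left _ _ hu.ne']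
    rw [b2, b3]
    congr 2
    ring
  have hq' : (q : ℤ) ≠ 0 := by exact_mod_cast hq.ne'
  have c1 := hx1.symm.trans hx2
  have c2 := hy1.symm.trans hy2
  simp only [pt, Prod.mk.injEq, add_right_inj, mul_eq_mul_left_iff, hq', or_false] at c1 c2
  have d1 : e.2.1 = e'.2.1 := by
    have : ((k2 - l2 * u) - (k3 - l3 * u)) * (e.2.1 - e'.2.1) = 0 := by
      linear_combination c1.1 - c2.1
    rcases mul_eq_zero.1 this with h | h
    · exact absurd (sub_eq_zero.1 h) hne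
    · exact sub_eq_zero.1 h
  have d2 : e.2.2 = e'.2.2 := by
    have : ((k2 - l2 * u) - (k3 - l3 * u)) * (e.2.2 - e'.2.2) = 0 := by
      linear_combination c1.2 - c2.2
    rcases mul_eq_zero.1 this with h | h
    · exact absurd (sub_eq_zero.1 h) hne
    · exact sub_eq_zero.1 h
  rw [d1, d2] at c1
  ext
  · linarith [c1.1]
  · linarith [c1.2]
  · exact d1
  · exact d2

lemma fam_box {q r : ℕ} (hq : 0 < q) {u : ℤ} (hu : 0 < u) (hur : (q : ℤ) ≤ u * r)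
    (V : Finset (ℤ × ℤ)) (c : (ℤ × ℤ) × (ℤ × ℤ)) :
    (V.filter (fun y => lab q u y = c)).card ≤ r := by
  have hq' : (0 : ℤ) < q := by exact_mod_cast hq
  have : (Finset.Ico (0 : ℤ) r).card = r := by simp
  rw [← this]
  apply Finset.card_le_card_of_injOn (fun y => y.1 % q / u)
  · intro y _
    simp only [Finset.coe_Ico, Set.mem_Ico]
    refine ⟨Int.ediv_nonneg (Int.emod_nonneg _ hq'.ne') hu.le, ?_⟩
    apply Int.ediv_lt_of_lt_mul hu
    have := Int.emod_lt_of_pos y.1 hq'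
    linarith [mul_comm u r]
  · intro y hy y' hy' h
    simp only [Finset.coe_filter, Set.mem_ofPred_eq] at hy hy' h
    have e := hy.2.trans hy'.2.symm
    simp only [lab, Prod.mk.injEq] at e
    rw [h] at e
    ext
    · linarith [e.1.1]
    · linarith [e.1.2]

lemma fam_img {q r : ℕ} {u : ℕ} (hu : 0 < u) (hur : q ≤ u * r) (e : (ℤ × ℤ) × (ℤ × ℤ)) :
    ((lat q u e).image (lab q u)).card ≤ u * (q + r) := by
  have hu' : (0 : ℤ) < u := by exact_mod_cast hu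
  have hur' : (q : ℤ) ≤ u * r := by exact_mod_cast hur
  have h1 : (lat q u e).image (lab q u) ⊆
      (Finset.Ico (0 : ℤ) u ×ˢ Finset.Ico (-(r : ℤ)) q).image (lab2 q u e) := by
    intro c hc
    obtain ⟨y, hy, rfl⟩ := Finset.mem_image.1 hc
    obtain ⟨k, l, h1, h2, h3, h4, rfl⟩ := mem_lat.1 hy
    rw [lab_pt h1 h2 h3 h4]
    apply Finset.mem_image_of_mem
    simp only [Finset.mem_product, Finset.mem_Ico]
    have a1 : 0 ≤ k / u := Int.ediv_nonneg h1 hu'.le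
    have a2 : k / u < r := by
      apply Int.ediv_lt_of_lt_mul hu'
      linarith [mul_comm (u : ℤ) r]
    exact ⟨⟨Int.emod_nonneg _ hu'.ne', Int.emod_lt_of_pos _ hu'⟩, by linarith, by linarith⟩
  refine (Finset.card_le_card h1).trans (Finset.card_image_le.trans ?_)
  simp only [Finset.card_product, Int.card_Ico]
  have : ((q : ℤ) - -(r : ℤ)).toNat = q + r := by omega
  rw [this]
  simp

lemma fam_two {q : ℕ} (hq : 2 ≤ q) {u : ℤ} (e : (ℤ × ℤ) × (ℤ × ℤ)) (x : ℤ × ℤ) :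
    ∃ y ∈ lat q u e, lab q u x ≠ lab q u y := by
  have hq' : (2 : ℤ) ≤ q := by exact_mod_cast hq
  have h0 : pt q u e 0 0 ∈ lat q u e :=
    mem_lat.2 ⟨0, 0, le_rfl, by linarith, le_rfl, by linarith, rfl⟩
  have h1 : pt q u e 0 1 ∈ lat q u e :=
    mem_lat.2 ⟨0, 1, le_rfl, by linarith, zero_le_one, by linarith, rfl⟩
  by_contra hcon
  push Not at hcon
  have := (hcon _ h0).symm.trans (hcon _ h1)
  rw [lab_pt le_rfl (by linarith) le_rfl (by linarith),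
    lab_pt le_rfl (by linarith) zero_le_one (by linarith)] at this
  simp [lab2] at this

lemma fam_sub {q u n N : ℕ} (huq : u ≤ q) (hN : 4 * q ^ 3 * n ≤ N) {e : (ℤ × ℤ) × (ℤ × ℤ)}
    (h1 : e.1.1 ∈ Finset.Ioc ((q : ℤ) ^ 2 * n) (2 * ((q : ℤ) ^ 2 * n)))
    (h2 : e.1.2 ∈ Finset.Ioc ((q : ℤ) ^ 2 * n) (2 * ((q : ℤ) ^ 2 * n)))
    (h3 : e.2.1 ∈ Finset.Ico (0 : ℤ) n) (h4 : e.2.2 ∈ Finset.Ico (0 : ℤ) n) :
    lat q u e ⊆ board N := by
  intro y hy
  obtain ⟨k, l, a1, a2, a3, a4, rfl⟩ := mem_lat.1 hy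
  have huq' : (u : ℤ) ≤ q := by exact_mod_cast huq
  have hu0 : (0 : ℤ) ≤ u := by positivity
  have hN' : 4 * (q : ℤ) ^ 3 * n ≤ N := by exact_mod_cast hN
  have key : ∀ x i z : ℤ, x ∈ Finset.Ioc ((q : ℤ) ^ 2 * n) (2 * ((q : ℤ) ^ 2 * n)) →
      i ∈ Finset.Ico (0 : ℤ) n → 0 ≤ z → z < q →
      z + q * (x + (k - l * u) * i) ∈ Finset.Icc (1 : ℤ) N := by
    intro x i z hx hi hz1 hz2
    rw [Finset.mem_Ioc] at hx
    rw [Finset.mem_Ico] at hi
    rw [Finset.mem_Icc]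
    have b1 : l * u ≤ (q : ℤ) ^ 2 := by nlinarith
    have b2 : 0 ≤ l * u := mul_nonneg a3 hu0
    have b3 : k ≤ (q : ℤ) ^ 2 := by nlinarith
    have b4 : -((q : ℤ) ^ 2 * n) ≤ (k - l * u) * i := by nlinarith
    have b5 : (k - l * u) * i ≤ (q : ℤ) ^ 2 * n := by nlinarith
    have b6 : 1 ≤ (q : ℤ) ^ 2 * n := by nlinarith
    constructor
    · nlinarith
    · nlinarith
  unfold board pt
  rw [Finset.mem_product]
  exact ⟨key _ _ _ h1 h3 a1 a2, key _ _ _ h2 h4 a3 a4⟩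

lemma fam_mem {par : Bool} {q N : ℕ} (hq : 2 ≤ q) {u : ℤ} {e : (ℤ × ℤ) × (ℤ × ℤ)}
    (h : lat q u e ⊆ board N) (h1 : par = false → e.2.1 = u * e.2.2) :
    lat q u e ∈ lattices par N q := by
  refine ⟨h, _, _, _, ?_, ?_, rfl⟩
  · rw [LinearIndependent.pair_iff]
    intro s t hst
    have hq' : (2 : ℤ) ≤ q := by exact_mod_cast hq
    simp only [Prod.smul_mk, smul_eq_mul, Prod.mk_add_mk, Prod.mk_eq_zero] at hst
    have hd : 1 + q * (e.2.1 - u * e.2.2) ≠ 0 := by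
      intro hh
      have : (q : ℤ) ∣ 1 := ⟨-(e.2.1 - u * e.2.2), by linarith⟩
      have := Int.le_of_dvd one_pos this
      linarith
    constructor
    · have : (1 + q * (e.2.1 - u * e.2.2)) * s = 0 := by
        linear_combination (1 - u * q * e.2.2) * hst.1 + (u * q * e.2.1) * hst.2
      exact (mul_eq_zero.1 this).resolve_left hd
    · have : (1 + q * (e.2.1 - u * e.2.2)) * t = 0 := by
        linear_combination (-(q * e.2.2)) * hst.1 + (1 + q * e.2.1) * hst.2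
      exact (mul_eq_zero.1 this).resolve_left hd
  · intro hp
    have := h1 hp
    simp only
    rw [this, abs_eq (by norm_num)]
    left
    ring

/-- index set of the directions -/
noncomputable def dirs (par : Bool) (q u n : ℕ) : Finset (ℤ × ℤ) :=
  if par = true then Finset.Ico (0 : ℤ) n ×ˢ Finset.Ico (0 : ℤ) n
  else (Finset.Ico (0 : ℤ) (n / q : ℕ)).image (fun s => ((u : ℤ) * s, s))

lemma dirs_mem {par : Bool} {q u n : ℕ} (hq : 1 ≤ q) (huq : u ≤ q) {p : ℤ × ℤ}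
    (h : p ∈ dirs par q u n) :
    p.1 ∈ Finset.Ico (0 : ℤ) n ∧ p.2 ∈ Finset.Ico (0 : ℤ) n ∧ (par = false → p.1 = u * p.2) := by
  unfold dirs at h
  split_ifs at h with hp
  · rw [Finset.mem_product] at h
    exact ⟨h.1, h.2, fun h => by simp [hp] at h⟩
  · obtain ⟨s, hs, rfl⟩ := Finset.mem_image.1 h
    rw [Finset.mem_Ico] at hs
    have h1 : ((n / q : ℕ) : ℤ) * q ≤ n := by exact_mod_cast Nat.div_mul_le_self n q
    have hq' : (1 : ℤ) ≤ q := by exact_mod_cast hq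
    have huq' : (u : ℤ) ≤ q := by exact_mod_cast huq
    have hu0 : (0 : ℤ) ≤ u := by positivity
    simp only [Finset.mem_Ico]
    refine ⟨⟨mul_nonneg hu0 hs.1, by nlinarith⟩, ⟨hs.1, by nlinarith⟩, fun _ => trivial⟩

lemma dirs_card (par : Bool) (q u n : ℕ) :
    (n / q) ^ (if par = true then 2 else 1) ≤ (dirs par q u n).card := by
  unfold dirs
  split_ifs with hp
  · simp only [Finset.card_product, Int.card_Ico, sub_zero, Int.toNat_natCast]
    rw [← sq]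
    exact Nat.pow_le_pow_left (Nat.div_le_self _ _) 2
  · rw [Finset.card_image_of_injective _ (fun s t h => (Prod.mk.inj h).2)]
    simp only [Int.card_Ico, sub_zero, Int.toNat_natCast, pow_one, le_refl]

/-- the chain hypergraph -/
noncomputable def fam (par : Bool) (q r u n N : ℕ) (hq : 2 ≤ q) (hu : 0 < u) (huq : u ≤ q)
    (hur : q ≤ u * r) (hN : 4 * q ^ 3 * n ≤ N) :
    Sys (ℤ × ℤ) ((ℤ × ℤ) × (ℤ × ℤ)) ((ℤ × ℤ) × (ℤ × ℤ)) where
  V := board N
  π := lab q u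
  F := (Finset.Ioc ((q : ℤ) ^ 2 * n) (2 * ((q : ℤ) ^ 2 * n)) ×ˢ
    Finset.Ioc ((q : ℤ) ^ 2 * n) (2 * ((q : ℤ) ^ 2 * n))) ×ˢ dirs par q u n
  E := lat q u
  r := r
  J := u * (q + r)
  sub := by
    intro e he
    simp only [Finset.mem_product] at he
    obtain ⟨h1, h2, -⟩ := dirs_mem (by omega) huq he.2
    exact fam_sub huq hN he.1.1 he.1.2 h1 h2
  sat := fun _ _ _ hx _ _ h => fam_sat (by omega) hx h
  lin := fun _ _ _ _ _ _ h1 h2 h3 h4 h =>
    fam_lin (by omega) (by exact_mod_cast hu) h1 h2 h3 h4 h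
  box := fun c => fam_box (by omega) (by exact_mod_cast hu) (by exact_mod_cast hur) _ c
  img := fun e _ => fam_img hu hur e
  two := fun e _ x _ => fam_two hq e x

lemma fam_W (par : Bool) (q r u n N : ℕ) (hq : 2 ≤ q) (hu : 0 < u) (huq : u ≤ q)
    (hur : q ≤ u * r) (hN : 4 * q ^ 3 * n ≤ N) :
    ∀ e ∈ (fam par q r u n N hq hu huq hur hN).F,
      (fam par q r u n N hq hu huq hur hN).E e ∈ lattices par N q := by
  intro e he
  have h := (fam par q r u n N hq hu huq hur hN).sub e he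
  simp only [fam, Finset.mem_product] at he
  exact fam_mem hq h (dirs_mem (by omega) huq he.2).2.2

lemma fam_card (par : Bool) (q r u n N : ℕ) (hq : 2 ≤ q) (hu : 0 < u) (huq : u ≤ q)
    (hur : q ≤ u * r) (hN : 4 * q ^ 3 * n ≤ N) :
    (q ^ 2 * n) ^ 2 * (n / q) ^ (if par = true then 2 else 1) ≤
      (fam par q r u n N hq hu huq hur hN).F.card := by
  simp only [fam, Finset.card_product, Int.card_Ioc]
  have : (2 * ((q : ℤ) ^ 2 * n) - (q : ℤ) ^ 2 * n).toNat = q ^ 2 * n := by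
    have : 2 * ((q : ℤ) ^ 2 * n) - (q : ℤ) ^ 2 * n = ((q ^ 2 * n : ℕ) : ℤ) := by push_cast; ring
    rw [this, Int.toNat_natCast]
  rw [this, ← sq]
  exact Nat.mul_le_mul_left _ (dirs_card par q u n)

lemma card_board (N : ℕ) : (board N).card = N ^ 2 := by
  simp [board, sq]

lemma lattices_bound {par : Bool} {N q : ℕ} {A : Finset (ℤ × ℤ)} (h : A ∈ lattices par N q) :
    q ≤ N := by
  obtain ⟨hA, u, v, w, hli, -, rfl⟩ := h
  have h1 := Finset.card_le_card hA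
  rw [card_board, Finset.card_image_of_injective] at h1
  · simp only [Finset.card_product, Finset.card_range, ← sq] at h1
    exact (Nat.pow_le_pow_iff_left (by norm_num)).1 h1
  · intro p p' hp
    have h0 : ((p.1 : ℤ) - p'.1) • v + ((p.2 : ℤ) - p'.2) • w = 0 := by
      simp only at hp
      have : u + p.1 • v + p.2 • w - (u + p'.1 • v + p'.2 • w) = 0 := sub_eq_zero.2 hp
      rw [← this]
      simp only [sub_smul, natCast_zsmul]
      abel
    obtain ⟨e1, e2⟩ := (LinearIndependent.pair_iff.1 hli) _ _ h0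
    exact Prod.ext (by omega) (by omega)

end Pool.Agent.Lib.MP_58ead2_co.G
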