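import Mathlib
import Pool.Agent.Lib.MP_58ead2_co.GLat

namespace Pool.Agent.Lib.MP_58ead2_co.G

/-- The `(a:f)` avoidance game on the board `V` with target sets `W`.
`ForcerWins V W a f P Q t`: in the position where Avoider owns `P`, Forcer owns `Q` and it is
Avoider's turn iff `t = true`, Forcer can force that, when the board is full, Avoider owns every
point of some target set.  A move claims `a` (resp. `f`) unclaimed points, or all of them if
fewer are left. -/
inductive ForcerWins {α : Type} [DecidableEq α] (V : Finset α) (W : Set (Finset α)) (a f : ℕ) :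
    Finset α → Finset α → Bool → Prop
  | full (P Q : Finset α) (t : Bool) :
      V \ (P ∪ Q) = ∅ → (∃ A ∈ W, A ⊆ P) → ForcerWins V W a f P Q t
  | avoider (P Q : Finset α) :
      V \ (P ∪ Q) ≠ ∅ →
      (∀ S : Finset α, S ⊆ V \ (P ∪ Q) → S.card = min a (V \ (P ∪ Q)).card →
        ForcerWins V W a f (P ∪ S) Q false) →
      ForcerWins V W a f P Q true
  | forcer (P Q S : Finset α) :
      V \ (P ∪ Q) ≠ ∅ → S ⊆ V \ (P ∪ Q) → S.card = min f (V \ (P ∪ Q)).card →
      ForcerWins V W a f P (Q ∪ S) true → ForcerWins V W a f P Q false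

/-- `A(N; X; a:f; -)`: the largest `q ≥ 2` for which Forcer wins from the empty board; Avoider
moves first iff `t = true`. -/
noncomputable def avoid (par t : Bool) (N a f : ℕ) : ℕ :=
  sSup {q : ℕ | 2 ≤ q ∧ ForcerWins (board N) (lattices par N q) a f ∅ ∅ t}

end Pool.Agent.Lib.MP_58ead2_co.G
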