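import Mathlib
import Pool.Agent.Lib.MP_58ead2_co.GSys
import Pool.Agent.Lib.MP_58ead2_co.GAvd

namespace Pool.Agent.Lib.MP_58ead2_co.G

open Finset

noncomputable def gg (β : ℝ) (i : ℕ) : ℝ := ∏ j ∈ Finset.range i, (1 + β / (j + 1))

lemma gg_succ (β : ℝ) (i : ℕ) : gg β (i + 1) = gg β i * (1 + β / (i + 1)) :=
  Finset.prod_range_succ _ _

lemma one_le_gg {β : ℝ} (hβ : 0 ≤ β) (i : ℕ) : 1 ≤ gg β i := by
  induction i with
  | zero => simp [gg]
  | succ i ih =>
    rw [gg_succ]
    have : 0 ≤ β / (i + 1) := by positivity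
    nlinarith

lemma gg_mono {β : ℝ} (hβ : 0 ≤ β) : Monotone (gg β) := by
  apply monotone_nat_of_le_succ
  intro i
  rw [gg_succ]
  have : 0 ≤ β / (i + 1) := by positivity
  have := one_le_gg hβ i
  nlinarith

namespace Sys

variable {α γ ι : Type} [DecidableEq α] [DecidableEq γ] (H : Sys α γ ι)

def fr (P : Finset α) (c : γ) : ℕ := (H.bx c \ P).card

noncomputable def aw (β : ℝ) (P : Finset α) (e : ι) : ℝ :=
  ∏ c ∈ (H.E e).image H.π, (gg β (H.fr P c))⁻¹

lemma aw_pos {β : ℝ} (hβ : 0 ≤ β) (P : Finset α) (e : ι) : 0 < H.aw β P e := by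
  apply Finset.prod_pos
  intro c _
  have := one_le_gg hβ (H.fr P c)
  positivity

lemma aw_le_one {β : ℝ} (hβ : 0 ≤ β) (P : Finset α) (e : ι) : H.aw β P e ≤ 1 := by
  apply Finset.prod_le_one
  · intro c _
    have := one_le_gg hβ (H.fr P c)
    positivity
  · intro c _
    exact inv_le_one_of_one_le₀ (one_le_gg hβ _)

lemma fr_anti {P P' : Finset α} (h : P ⊆ P') (c : γ) : H.fr P' c ≤ H.fr P c :=
  Finset.card_le_card (Finset.sdiff_subset_sdiff subset_rfl h)

lemma fr_le (P : Finset α) (c : γ) : H.fr P c ≤ H.r :=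
  (Finset.card_le_card Finset.sdiff_subset).trans (H.box c)

lemma fr_pos {P : Finset α} {y : α} (hV : y ∈ H.V) (hP : y ∉ P) : 1 ≤ H.fr P (H.π y) :=
  Finset.card_pos.2 ⟨y, Finset.mem_sdiff.2 ⟨H.mem_bx.2 ⟨hV, rfl⟩, hP⟩⟩

lemma aw_mono {β : ℝ} (hβ : 0 ≤ β) {P P' : Finset α} (h : P ⊆ P') (e : ι) :
    H.aw β P e ≤ H.aw β P' e := by
  apply Finset.prod_le_prod
  · intro c _
    have := one_le_gg hβ (H.fr P c)
    positivity
  · intro c _
    have := one_le_gg hβ (H.fr P' c)
    exact inv_anti₀ (by positivity) (gg_mono hβ (H.fr_anti h c))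

lemma aw_insert {β : ℝ} (hβ : 0 ≤ β) {P : Finset α} {e : ι} (he : e ∈ H.F) {y : α}
    (hy : y ∈ H.E e) (hP : y ∉ P) :
    H.aw β (insert y P) e = H.aw β P e * (1 + β / H.fr P (H.π y)) := by
  have hV := H.sub e he hy
  have hc : H.π y ∈ (H.E e).image H.π := Finset.mem_image_of_mem _ hy
  unfold aw
  rw [← Finset.mul_prod_erase _ _ hc, ← Finset.mul_prod_erase _ _ hc]
  have h1 : ∏ c ∈ ((H.E e).image H.π).erase (H.π y), (gg β (H.fr (insert y P) c))⁻¹ =
      ∏ c ∈ ((H.E e).image H.π).erase (H.π y), (gg β (H.fr P c))⁻¹ := by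
    apply Finset.prod_congr rfl
    intro c hc'
    have hne := (Finset.mem_erase.1 hc').1
    have : H.bx c \ insert y P = H.bx c \ P := by
      ext z
      simp only [Finset.mem_sdiff, Finset.mem_insert, not_or, H.mem_bx]
      constructor
      · tauto
      · rintro ⟨h1, h2⟩
        exact ⟨h1, fun h => hne (by rw [← h1.2, h]), h2⟩
    unfold fr
    rw [this]
  have h2 : H.fr P (H.π y) = H.fr (insert y P) (H.π y) + 1 := by
    unfold fr
    have : H.bx (H.π y) \ P = insert y (H.bx (H.π y) \ insert y P) := by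
      ext z
      simp only [Finset.mem_sdiff, Finset.mem_insert, not_or, H.mem_bx]
      constructor
      · intro h
        by_cases hz : z = y
        · exact Or.inl hz
        · exact Or.inr ⟨h.1, hz, h.2⟩
      · rintro (h | h)
        · subst h; exact ⟨⟨hV, rfl⟩, hP⟩
        · exact ⟨h.1, h.2.2⟩
    rw [this, Finset.card_insert_of_notMem (by simp)]
  rw [h1, h2, gg_succ]
  have h3 := one_le_gg hβ (H.fr (insert y P) (H.π y))
  have h4 : 0 ≤ β / ((H.fr (insert y P) (H.π y) : ℝ) + 1) := by positivity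
  push_cast
  field_simp

lemma aw_union {β : ℝ} (hβ : 0 ≤ β) {P : Finset α} {e : ι} (he : e ∈ H.F) (S : Finset α)
    (hS : Disjoint S P) :
    H.aw β P e + ∑ y ∈ S, β / H.fr P (H.π y) * (if y ∈ H.E e then H.aw β P e else 0) ≤
      H.aw β (P ∪ S) e := by
  induction S using Finset.induction_on with
  | empty => simp
  | insert y S hy ih =>
    rw [Finset.disjoint_insert_left] at hS
    have ih' := ih hS.2
    rw [Finset.sum_insert hy, Finset.union_insert]
    have hyP : y ∉ P ∪ S := by simp [hS.1, hy]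
    by_cases hye : y ∈ H.E e
    · rw [if_pos hye, H.aw_insert hβ he hye hyP]
      have h1 : H.aw β P e ≤ H.aw β (P ∪ S) e := H.aw_mono hβ Finset.subset_union_left e
      have h2 : β / H.fr P (H.π y) ≤ β / H.fr (P ∪ S) (H.π y) := by
        apply div_le_div_of_nonneg_left hβ
        · exact_mod_cast H.fr_pos (H.sub e he hye) hyP
        · exact_mod_cast H.fr_anti Finset.subset_union_left _
      have h3 := H.aw_pos hβ P e
      have h4 : 0 ≤ β / H.fr P (H.π y) := by positivity
      nlinarith [mul_le_mul h2 h1 h3.le (h4.trans h2)]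
    · rw [if_neg hye]
      have := H.aw_mono hβ (Finset.subset_insert y (P ∪ S)) e
      linarith

lemma pot_gain {β : ℝ} (hβ : 0 ≤ β) {P : Finset α} (Q S : Finset α) (hS : Disjoint S P) :
    H.pot (H.aw β P) Q + ∑ y ∈ S, β / H.fr P (H.π y) * H.wt (H.aw β P) Q y ≤
      H.pot (H.aw β (P ∪ S)) Q := by
  unfold pot wt
  simp only [Finset.mul_sum]
  rw [Finset.sum_comm, ← Finset.sum_add_distrib]
  apply Finset.sum_le_sum
  intro e he
  by_cases h : Disjoint (H.E e) Q
  · simp only [h, true_and, if_true]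
    exact H.aw_union hβ he S hS
  · simp [h]

def touched (Q : Finset α) (z : α) : Prop := ∃ y ∈ Q, y ∈ H.V ∧ H.π y = H.π z

open Classical in
noncomputable def safe (P Q : Finset α) : Finset α :=
  (H.V \ (P ∪ Q)).filter (fun z => H.touched Q z)

lemma mem_safe {P Q : Finset α} {z : α} :
    z ∈ H.safe P Q ↔ z ∈ H.V \ (P ∪ Q) ∧ H.touched Q z := by
  classical
  unfold safe
  simp only [Finset.mem_filter]

lemma pot_safe (f : ι → ℝ) {Q : Finset α} {z : α} (h : H.touched Q z) :
    H.pot f (Q ∪ {z}) = H.pot f Q := by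
  apply Finset.sum_congr rfl
  intro e he
  obtain ⟨y, hyQ, hyV, hyz⟩ := h
  have : Disjoint (H.E e) (Q ∪ {z}) ↔ Disjoint (H.E e) Q := by
    rw [Finset.disjoint_union_right, Finset.disjoint_singleton_right]
    refine ⟨fun h => h.1, fun h => ⟨h, fun hz => ?_⟩⟩
    exact Finset.disjoint_left.1 h (H.sat e he z hz y hyV hyz) hyQ
  simp only [this]

lemma select {β : ℝ} (hβ : 0 ≤ β) (P Q : Finset α) (h0 : (H.safe P Q).card + 1 ≤ H.r) (k : ℕ)
    (hk : k ≤ (H.V \ (P ∪ Q)).card) :
    ∃ S ⊆ H.V \ (P ∪ Q), S.card = k ∧ ∃ μ : ℝ, 0 ≤ μ ∧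
      β * (H.pot (H.aw β P) Q - H.pot (H.aw β P) (Q ∪ S)) ≤
        μ * (k + (H.safe P (Q ∪ S)).card) ∧
      (H.safe P (Q ∪ S)).card + 1 ≤ H.r ∧
      ∀ y ∈ H.V \ (P ∪ (Q ∪ S)), ¬ H.touched (Q ∪ S) y →
        μ ≤ β / H.fr P (H.π y) * H.wt (H.aw β P) Q y := by
  have hw0 : ∀ e ∈ H.F, 0 ≤ H.aw β P e := fun e _ => (H.aw_pos hβ P e).le
  induction k with
  | zero =>
    refine ⟨∅, Finset.empty_subset _, rfl, 0, le_rfl, by simp, by simpa using h0, ?_⟩
    intro y _ _
    have := H.wt_nonneg hw0 Q y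
    positivity
  | succ k ih =>
    obtain ⟨S, hS1, hS2, μ, hμ, h1, h2, h3⟩ := ih (by omega)
    have hcard : ∀ z ∈ H.V \ (P ∪ (Q ∪ S)), S ∪ {z} ⊆ H.V \ (P ∪ Q) ∧ (S ∪ {z}).card = k + 1 := by
      intro z hz
      simp only [Finset.mem_sdiff, Finset.mem_union, not_or] at hz
      constructor
      · apply Finset.union_subset hS1
        simp only [Finset.singleton_subset_iff, Finset.mem_sdiff, Finset.mem_union, not_or]
        tauto
      · rw [Finset.card_union_of_disjoint (by simp [hz.2.2.2]), hS2, Finset.card_singleton]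
    by_cases hs : (H.safe P (Q ∪ S)).Nonempty
    · obtain ⟨z, hz⟩ := hs
      have hz' := H.mem_safe.1 hz
      have ht : ∀ y, H.touched (Q ∪ (S ∪ {z})) y ↔ H.touched (Q ∪ S) y := by
        intro y
        constructor
        · rintro ⟨w, hw1, hw2, hw3⟩
          simp only [Finset.mem_union, Finset.mem_singleton] at hw1
          rcases hw1 with h | h | h
          · exact ⟨w, by simp [h], hw2, hw3⟩
          · exact ⟨w, by simp [h], hw2, hw3⟩
          · obtain ⟨w', hw1', hw2', hw3'⟩ := hz'.2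
            exact ⟨w', hw1', hw2', by rw [hw3', ← h, hw3]⟩
        · rintro ⟨w, hw1, hw2, hw3⟩
          refine ⟨w, ?_, hw2, hw3⟩
          simp only [Finset.mem_union] at hw1 ⊢
          tauto
      have hsafe : H.safe P (Q ∪ (S ∪ {z})) = (H.safe P (Q ∪ S)).erase z := by
        ext y
        rw [Finset.mem_erase, H.mem_safe, H.mem_safe, ht]
        simp only [Finset.mem_sdiff, Finset.mem_union, Finset.mem_singleton, not_or]
        tauto
      have hc : (H.safe P (Q ∪ (S ∪ {z}))).card + 1 = (H.safe P (Q ∪ S)).card := by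
        rw [hsafe]; exact Finset.card_erase_add_one hz
      refine ⟨S ∪ {z}, (hcard z hz'.1).1, (hcard z hz'.1).2, μ, hμ, ?_, by omega, ?_⟩
      · rw [← Finset.union_assoc, H.pot_safe _ hz'.2, Finset.union_assoc]
        rw [← hc] at h1
        push_cast at h1 ⊢
        linarith
      · intro y hy hty
        apply h3 y _ (fun h => hty ((ht y).2 h))
        simp only [Finset.mem_sdiff, Finset.mem_union, not_or] at hy ⊢
        tauto
    · rw [Finset.not_nonempty_iff_eq_empty] at hs
      have hne : (H.V \ (P ∪ (Q ∪ S))).Nonempty := by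
        by_contra hcon
        rw [Finset.not_nonempty_iff_eq_empty] at hcon
        have : H.V \ (P ∪ Q) ⊆ S := by
          intro y hy
          by_contra hyS
          have : y ∈ H.V \ (P ∪ (Q ∪ S)) := by
            simp only [Finset.mem_sdiff, Finset.mem_union, not_or] at hy ⊢
            tauto
          rw [hcon] at this
          simp at this
        have := Finset.card_le_card this
        omega
      have hunt : ∀ y ∈ H.V \ (P ∪ (Q ∪ S)), ¬ H.touched (Q ∪ S) y := by
        intro y hy hty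
        have : y ∈ H.safe P (Q ∪ S) := H.mem_safe.2 ⟨hy, hty⟩
        rw [hs] at this
        simp at this
      obtain ⟨z, hz, hmin⟩ := Finset.exists_min_image _
        (fun y => β / H.fr P (H.π y) * H.wt (H.aw β P) Q y) hne
      have hz' := hz
      simp only [Finset.mem_sdiff, Finset.mem_union, not_or] at hz'
      have hsafe : H.safe P (Q ∪ (S ∪ {z})) = (H.bx (H.π z) \ P).erase z := by
        ext y
        rw [Finset.mem_erase, H.mem_safe, Finset.mem_sdiff (s := H.bx _), H.mem_bx]
        constructor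
        · rintro ⟨hy, w, hw1, hw2, hw3⟩
          have hy' : y ∈ H.V \ (P ∪ (Q ∪ S)) := by
            simp only [Finset.mem_sdiff, Finset.mem_union, not_or] at hy ⊢
            tauto
          simp only [Finset.mem_sdiff, Finset.mem_union, Finset.mem_singleton, not_or] at hy hw1
          refine ⟨hy.2.2.2.2, ⟨hy.1, ?_⟩, hy.2.1⟩
          rcases hw1 with h | h | h
          · exact absurd ⟨w, by simp [h], hw2, hw3⟩ (hunt y hy')
          · exact absurd ⟨w, by simp [h], hw2, hw3⟩ (hunt y hy')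
          · rw [← hw3, h]
        · rintro ⟨h4, ⟨h5, h6⟩, h7⟩
          have h8 : y ∉ Q ∪ S := fun h => hunt z hz ⟨y, h, h5, h6⟩
          refine ⟨?_, z, by simp, hz'.1, h6.symm⟩
          simp only [Finset.mem_sdiff, Finset.mem_union, Finset.mem_singleton, not_or] at h8 ⊢
          tauto
      have hc : (H.safe P (Q ∪ (S ∪ {z}))).card + 1 = H.fr P (H.π z) := by
        rw [hsafe]
        exact Finset.card_erase_add_one
          (Finset.mem_sdiff.2 ⟨H.mem_bx.2 ⟨hz'.1, rfl⟩, hz'.2.1⟩)
      have hμ' := h3 z hz (hunt z hz)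
      refine ⟨S ∪ {z}, (hcard z hz).1, (hcard z hz).2,
        β / H.fr P (H.π z) * H.wt (H.aw β P) Q z, hμ.trans hμ', ?_,
        hc.le.trans (H.fr_le _ _), ?_⟩
      · have h4 := H.pot_kill hw0 (Q ∪ S) {z}
        rw [Finset.sum_singleton, Finset.union_assoc] at h4
        have h5 := H.wt_anti hw0 Q S z
        rw [hs] at h1
        have hc' : ((H.safe P (Q ∪ (S ∪ {z}))).card : ℝ) + 1 = H.fr P (H.π z) := by
          exact_mod_cast hc
        have hfp : (0 : ℝ) < H.fr P (H.π z) := by rw [← hc']; positivity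
        have h6 : β / H.fr P (H.π z) * H.wt (H.aw β P) Q z * H.fr P (H.π z) =
            β * H.wt (H.aw β P) Q z := by field_simp
        simp only [Finset.card_empty, Nat.cast_zero, add_zero] at h1
        have h7 : μ * k ≤ β / H.fr P (H.π z) * H.wt (H.aw β P) Q z * k :=
          mul_le_mul_of_nonneg_right hμ' (Nat.cast_nonneg k)
        have h8 : β * (H.pot (H.aw β P) (Q ∪ S) - H.pot (H.aw β P) (Q ∪ (S ∪ {z}))) ≤
            β * H.wt (H.aw β P) Q z := mul_le_mul_of_nonneg_left (by linarith) hβ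
        push_cast
        have h9 : (k : ℝ) + 1 + (H.safe P (Q ∪ (S ∪ {z}))).card = k + H.fr P (H.π z) := by
          linarith
        rw [h9, mul_add _ (k : ℝ), h6]
        linarith
      · intro y hy _
        apply hmin
        simp only [Finset.mem_sdiff, Finset.mem_union, not_or] at hy ⊢
        tauto

theorem forcer_aux {W : Set (Finset α)} (hW : ∀ e ∈ H.F, H.E e ∈ W) {a f : ℕ} {β : ℝ}
    (hβ : 0 < β) (hra : H.r ≤ a) (hβ' : (f : ℝ) + H.r - 1 ≤ β * (a - H.r + 1)) (n : ℕ) :
    ∀ P Q : Finset α, (H.V \ (P ∪ Q)).card ≤ n → (H.safe P Q).card + 1 ≤ H.r →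
      (n : ℝ) * (a * (β * f)) + f * H.V.card < H.pot (H.aw β P) Q →
      ForcerWins H.V W a f P Q false := by
  have hfull : ∀ (P Q : Finset α) (t : Bool), H.V \ (P ∪ Q) = ∅ →
      0 < H.pot (H.aw β P) Q → ForcerWins H.V W a f P Q t := by
    intro P Q t h1 h2
    obtain ⟨e, he, hs⟩ := H.exists_alive h2 h1
    exact ForcerWins.full P Q t h1 ⟨_, hW e he, hs⟩
  induction n with
  | zero =>
    intro P Q h1 _ h3
    exact hfull P Q false (Finset.card_eq_zero.1 (Nat.le_zero.1 h1))
      (lt_of_le_of_lt (by positivity) h3)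
  | succ n ih =>
    intro P Q h1 h2 h3
    by_cases hne : H.V \ (P ∪ Q) = ∅
    · exact hfull P Q false hne (lt_of_le_of_lt (by positivity) h3)
    obtain ⟨S, hS1, hS2, μ, hμ, h4, h5, h6⟩ :=
      H.select hβ.le P Q h2 (min f (H.V \ (P ∪ Q)).card) (min_le_right _ _)
    have hw0 : ∀ e ∈ H.F, 0 ≤ H.aw β P e := fun e _ => (H.aw_pos hβ.le P e).le
    have hw1 : ∀ e ∈ H.F, H.aw β P e ≤ 1 := fun e _ => H.aw_le_one hβ.le P e
    have hSf : (S.card : ℝ) ≤ f := by exact_mod_cast hS2.le.trans (min_le_left _ _)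
    have hpos : 0 < H.pot (H.aw β P) (Q ∪ S) := by
      have h7 := H.pot_kill hw0 Q S
      have h8 := Finset.sum_le_card_nsmul S (fun y => H.wt (H.aw β P) Q y) (H.V.card : ℝ)
        (fun y _ => H.wt_le_card hw1 Q y)
      rw [nsmul_eq_mul] at h8
      have h9 : (S.card : ℝ) * H.V.card ≤ f * H.V.card :=
        mul_le_mul_of_nonneg_right hSf (Nat.cast_nonneg _)
      have : (0 : ℝ) ≤ ((n + 1 : ℕ) : ℝ) * (a * (β * f)) := by positivity
      linarith
    refine ForcerWins.forcer P Q S hne hS1 hS2 ?_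
    by_cases hne' : H.V \ (P ∪ (Q ∪ S)) = ∅
    · exact hfull P _ true hne' hpos
    refine ForcerWins.avoider P _ hne' ?_
    intro T hT1 hT2
    have hTP : Disjoint T P := by
      rw [Finset.disjoint_left]
      intro y hy hyP
      have := hT1 hy
      simp [hyP] at this
    by_cases hT : T.card = a
    swap
    · have hT3 : T = H.V \ (P ∪ (Q ∪ S)) := by
        apply Finset.eq_of_subset_of_card_le hT1
        omega
      apply hfull
      · apply Finset.eq_empty_of_forall_notMem
        intro y hy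
        have : y ∈ T := by
          rw [hT3]
          simp only [Finset.mem_sdiff, Finset.mem_union, not_or] at hy ⊢
          tauto
        simp only [Finset.mem_sdiff, Finset.mem_union, not_or] at hy
        tauto
      · exact hpos.trans_le
          (H.pot_mono (fun e _ => H.aw_mono hβ.le Finset.subset_union_left e) _)
    apply ih
    · have h7 : H.V \ (P ∪ T ∪ (Q ∪ S)) ⊆ (H.V \ (P ∪ Q)) \ T := by
        intro y hy
        simp only [Finset.mem_sdiff, Finset.mem_union, not_or] at hy ⊢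
        tauto
      have h8 : T ⊆ H.V \ (P ∪ Q) := by
        intro y hy
        have := hT1 hy
        simp only [Finset.mem_sdiff, Finset.mem_union, not_or] at this ⊢
        tauto
      have h9 := Finset.card_le_card h7
      rw [Finset.card_sdiff_of_subset h8] at h9
      omega
    · refine le_trans (Nat.add_le_add_right (Finset.card_le_card ?_) 1) h5
      intro y hy
      rw [H.mem_safe] at hy ⊢
      refine ⟨?_, hy.2⟩
      have := hy.1
      simp only [Finset.mem_sdiff, Finset.mem_union, not_or] at this ⊢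
      tauto
    · have h7 := H.pot_gain hβ.le (Q ∪ S) T hTP
      have hnn : ∀ y, 0 ≤ β / H.fr P (H.π y) * H.wt (H.aw β P) (Q ∪ S) y := by
        intro y
        have := H.wt_nonneg hw0 (Q ∪ S) y
        positivity
      have h8 : ∑ y ∈ T \ H.safe P (Q ∪ S), β / H.fr P (H.π y) * H.wt (H.aw β P) (Q ∪ S) y ≤
          ∑ y ∈ T, β / H.fr P (H.π y) * H.wt (H.aw β P) (Q ∪ S) y :=
        Finset.sum_le_sum_of_subset_of_nonneg Finset.sdiff_subset (fun y _ _ => hnn y)
      have h9 : (T \ H.safe P (Q ∪ S)).card • max (μ - β * f) 0 ≤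
          ∑ y ∈ T \ H.safe P (Q ∪ S), β / H.fr P (H.π y) * H.wt (H.aw β P) (Q ∪ S) y := by
        apply Finset.card_nsmul_le_sum
        intro y hy
        rw [Finset.mem_sdiff, H.mem_safe] at hy
        have hy1 := hT1 hy.1
        have hy2 : ¬ H.touched (Q ∪ S) y := fun h => hy.2 ⟨hy1, h⟩
        refine max_le ?_ (hnn y)
        have e1 := h6 y hy1 hy2
        have e2 := H.wt_down hw0 hw1 Q S (y := y) (fun s hs h => hy2
          ⟨s, Finset.mem_union_right _ hs, (Finset.mem_sdiff.1 (hS1 hs)).1, h⟩)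
        simp only [Finset.mem_sdiff, Finset.mem_union, not_or] at hy1
        have e3 : (1 : ℝ) ≤ H.fr P (H.π y) := by exact_mod_cast H.fr_pos hy1.1 hy1.2.1
        have e4 : β / H.fr P (H.π y) ≤ β := div_le_self hβ.le e3
        have e5 : 0 ≤ β / H.fr P (H.π y) := by positivity
        have e6 := mul_le_mul_of_nonneg_left e2 e5
        have e7 : β / H.fr P (H.π y) * S.card ≤ β * f :=
          mul_le_mul e4 hSf (Nat.cast_nonneg _) hβ.le
        rw [mul_sub] at e6
        linarith
      rw [nsmul_eq_mul] at h9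
      have h10 : (a : ℝ) - H.r + 1 ≤ (T \ H.safe P (Q ∪ S)).card := by
        have := Finset.le_card_sdiff (H.safe P (Q ∪ S)) T
        have e : a + 1 ≤ (T \ H.safe P (Q ∪ S)).card + H.r := by omega
        have e' : (a : ℝ) + 1 ≤ (T \ H.safe P (Q ∪ S)).card + H.r := by exact_mod_cast e
        linarith
      have hra' : (H.r : ℝ) ≤ a := by exact_mod_cast hra
      have hr1 : (1 : ℝ) ≤ H.r := by exact_mod_cast (by omega : 1 ≤ H.r)
      have h11 : ((a : ℝ) - H.r + 1) * (μ - β * f) ≤
          (T \ H.safe P (Q ∪ S)).card * max (μ - β * f) 0 :=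
        (mul_le_mul_of_nonneg_left (le_max_left _ _) (by linarith)).trans
          (mul_le_mul_of_nonneg_right h10 (le_max_right _ _))
      have h12 : ((min f (H.V \ (P ∪ Q)).card : ℕ) : ℝ) + (H.safe P (Q ∪ S)).card ≤
          β * (a - H.r + 1) := by
        have e : ((H.safe P (Q ∪ S)).card : ℝ) + 1 ≤ H.r := by exact_mod_cast h5
        rw [← hS2]
        linarith
      have h13 : H.pot (H.aw β P) Q - H.pot (H.aw β P) (Q ∪ S) ≤ μ * (a - H.r + 1) := by
        have := h4.trans (mul_le_mul_of_nonneg_left h12 hμ)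
        apply le_of_mul_le_mul_left _ hβ
        linarith
      have h14 : ((a : ℝ) - H.r + 1) * (β * f) ≤ a * (β * f) :=
        mul_le_mul_of_nonneg_right (by linarith) (by positivity)
      push_cast at h3
      nlinarith

theorem forcer {W : Set (Finset α)} (hW : ∀ e ∈ H.F, H.E e ∈ W) {a f : ℕ} {β : ℝ}
    (hβ : 0 < β) (hr : 1 ≤ H.r) (hra : H.r ≤ a) (hβ' : (f : ℝ) + H.r - 1 ≤ β * (a - H.r + 1))
    (h : (H.V.card : ℝ) * ((a * (β * f) + f) * gg β H.r ^ H.J) < H.F.card) (t : Bool) :
    ForcerWins H.V W a f ∅ ∅ t := by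
  have hg := one_le_gg hβ.le H.r
  have key : ∀ P : Finset α, (H.V.card : ℝ) * (a * (β * f)) + f * H.V.card <
      H.pot (H.aw β P) ∅ := by
    intro P
    have h1 : H.F.card • (gg β H.r ^ H.J)⁻¹ ≤ H.pot (H.aw β P) ∅ := by
      apply Finset.card_nsmul_le_sum
      intro e he
      rw [if_pos (Finset.disjoint_empty_right _)]
      calc (gg β H.r ^ H.J)⁻¹ ≤ (gg β H.r ^ ((H.E e).image H.π).card)⁻¹ :=
            inv_anti₀ (by positivity) (pow_le_pow_right₀ hg (H.img e he))
        _ = ∏ _c ∈ (H.E e).image H.π, (gg β H.r)⁻¹ := by rw [Finset.prod_const, inv_pow]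
        _ ≤ _ := by
            apply Finset.prod_le_prod
            · intro c _; positivity
            · intro c _
              have := one_le_gg hβ.le (H.fr P c)
              exact inv_anti₀ (by positivity) (gg_mono hβ.le (H.fr_le P c))
    rw [nsmul_eq_mul] at h1
    refine lt_of_lt_of_le ?_ h1
    rw [← div_eq_mul_inv, lt_div_iff₀ (by positivity)]
    linarith
  have hs : ∀ P : Finset α, (H.safe P ∅).card + 1 ≤ H.r := by
    intro P
    have : H.safe P ∅ = ∅ := by
      apply Finset.eq_empty_of_forall_notMem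
      intro y hy
      obtain ⟨w, hw, -⟩ := (H.mem_safe.1 hy).2
      simp at hw
    rw [this]; simpa using hr
  have main : ∀ P : Finset α, ForcerWins H.V W a f P ∅ false := fun P =>
    H.forcer_aux hW hβ hra hβ' H.V.card P ∅ (Finset.card_le_card Finset.sdiff_subset) (hs P)
      (key P)
  cases t with
  | false => exact main ∅
  | true =>
    by_cases hne : H.V \ (∅ ∪ ∅) = ∅
    · obtain ⟨e, he, hs⟩ := H.exists_alive (lt_of_le_of_lt (by positivity) (key ∅)) hne
      exact ForcerWins.full ∅ ∅ true hne ⟨_, hW e he, hs⟩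
    · exact ForcerWins.avoider ∅ ∅ hne (fun S _ _ => main _)

end Sys

end Pool.Agent.Lib.MP_58ead2_co.G
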