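import Mathlib
import Pool.Agent.Lib.MP_58ead2_co.GSys
import Pool.Agent.Lib.MP_58ead2_co.GAch

namespace Pool.Agent.Lib.MP_58ead2_co.G

open Finset

namespace Sys

variable {α β ι : Type} [DecidableEq α] [DecidableEq β] (H : Sys α β ι)

noncomputable def mw (l : ℝ) (C : Finset β) (e : ι) : ℝ := l ^ ((H.E e).image H.π ∩ C).card

lemma mw_pos {l : ℝ} (hl : 1 ≤ l) (C : Finset β) (e : ι) : 0 < H.mw l C e := by
  unfold mw; positivity

lemma mw_le {l : ℝ} (hl : 1 ≤ l) (C : Finset β) {e : ι} (he : e ∈ H.F) : H.mw l C e ≤ l ^ H.J :=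
  pow_le_pow_right₀ hl ((Finset.card_le_card Finset.inter_subset_left).trans (H.img e he))

lemma mw_insert {l : ℝ} {C : Finset β} {e : ι} {x : α} (hx : x ∈ H.E e) (hC : H.π x ∉ C) :
    H.mw l (insert (H.π x) C) e = l * H.mw l C e := by
  unfold mw
  rw [Finset.inter_insert_of_mem (Finset.mem_image_of_mem _ hx), Finset.card_insert_of_notMem,
    pow_succ, mul_comm]
  exact fun h => hC (Finset.mem_inter.1 h).2

lemma mw_insert' {l : ℝ} {C : Finset β} {e : ι} (he : e ∈ H.F) {x : α} (hV : x ∈ H.V)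
    (hx : x ∉ H.E e) : H.mw l (insert (H.π x) C) e = H.mw l C e := by
  unfold mw
  rw [Finset.inter_insert_of_notMem]
  intro h
  obtain ⟨y, hy, hyx⟩ := Finset.mem_image.1 h
  exact hx (H.sat e he y hy x hV hyx.symm)

lemma pot_mw_insert (b : ℝ) {C : Finset β} {x : α} (hV : x ∈ H.V) (hC : H.π x ∉ C)
    (B : Finset α) :
    H.pot (H.mw (1 + b) (insert (H.π x) C)) B =
      H.pot (H.mw (1 + b) C) B + b * H.wt (H.mw (1 + b) C) B x := by
  unfold pot wt
  rw [Finset.mul_sum, ← Finset.sum_add_distrib]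
  apply Finset.sum_congr rfl
  intro e he
  by_cases h1 : Disjoint (H.E e) B
  · by_cases h2 : x ∈ H.E e
    · rw [if_pos h1, if_pos h1, if_pos ⟨h1, h2⟩, H.mw_insert h2 hC]; ring
    · rw [if_pos h1, if_pos h1, if_neg (fun h => h2 h.2), H.mw_insert' he hV h2]; ring
  · rw [if_neg h1, if_neg h1, if_neg (fun h => h1 h.1)]; ring

theorem maker_aux {W : Set (Finset α)} (hW : ∀ e ∈ H.F, H.E e ∈ W) {m b : ℕ} (hm : 1 ≤ m)
    (hr : H.r ≤ m) (n : ℕ) : ∀ (M B : Finset α) (C : Finset β), (H.V \ (M ∪ B)).card ≤ n →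
      (∀ x ∈ H.V \ (M ∪ B), H.π x ∉ C) →
      (n : ℝ) * (b * (b * (1 + b) ^ H.J)) < H.pot (H.mw (1 + b) C) B →
      MakerWins H.V W m b M B true := by
  have hb0 : (0 : ℝ) ≤ b := Nat.cast_nonneg b
  have hl : (1 : ℝ) ≤ 1 + b := by linarith
  have hK : (0 : ℝ) ≤ b * (1 + b) ^ H.J := by positivity
  have hfull : ∀ (M B : Finset α) (C : Finset β) (t : Bool), H.V \ (M ∪ B) = ∅ →
      0 < H.pot (H.mw (1 + b) C) B → MakerWins H.V W m b M B t := by
    intro M B C t h1 h2
    obtain ⟨e, he, hs⟩ := H.exists_alive h2 h1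
    exact MakerWins.full M B t h1 ⟨_, hW e he, hs⟩
  induction n with
  | zero =>
    intro M B C h1 _ h3
    exact hfull M B C true (Finset.card_eq_zero.1 (Nat.le_zero.1 h1)) (by simpa using h3)
  | succ n ih =>
    intro M B C h1 h2 h3
    have hpos : 0 < H.pot (H.mw (1 + b) C) B := lt_of_le_of_lt (by positivity) h3
    by_cases hne : H.V \ (M ∪ B) = ∅
    · exact hfull M B C true hne hpos
    obtain ⟨x, hx, hmax⟩ := Finset.exists_max_image (H.V \ (M ∪ B))
      (H.wt (H.mw (1 + b) C) B) (Finset.nonempty_iff_ne_empty.2 hne)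
    have hxV : x ∈ H.V := (Finset.mem_sdiff.1 hx).1
    obtain ⟨S, hS1, hS2, hS3⟩ := Finset.exists_subsuperset_card_eq
      (s := H.bx (H.π x) ∩ (H.V \ (M ∪ B))) (t := H.V \ (M ∪ B))
      (n := min m (H.V \ (M ∪ B)).card) Finset.inter_subset_right
      (le_min ((Finset.card_le_card Finset.inter_subset_left).trans ((H.box _).trans hr))
        (Finset.card_le_card Finset.inter_subset_right)) (min_le_right _ _)
    have hxS : x ∈ S := hS1 (Finset.mem_inter.2 ⟨H.mem_bx.2 ⟨hxV, rfl⟩, hx⟩)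
    have hw0 : ∀ e ∈ H.F, 0 ≤ H.mw (1 + b) C e := fun e _ => (H.mw_pos hl C e).le
    have hw0' : ∀ e ∈ H.F, 0 ≤ H.mw (1 + b) (insert (H.π x) C) e :=
      fun e _ => (H.mw_pos hl _ e).le
    have hwx := H.wt_nonneg hw0 B x
    have hpot := H.pot_mw_insert b hxV (h2 x hx) B
    have hfree : ∀ y ∈ H.V \ (M ∪ S ∪ B), y ∈ H.V \ (M ∪ B) ∧ H.π x ≠ H.π y := by
      intro y hy
      have hy' : y ∈ H.V \ (M ∪ B) := by
        simp only [Finset.mem_sdiff, Finset.mem_union, not_or] at hy ⊢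
        tauto
      refine ⟨hy', fun h => ?_⟩
      have : y ∈ S := hS1 (Finset.mem_inter.2
        ⟨H.mem_bx.2 ⟨(Finset.mem_sdiff.1 hy').1, h.symm⟩, hy'⟩)
      simp only [Finset.mem_sdiff, Finset.mem_union, not_or] at hy
      tauto
    refine MakerWins.maker M B S hne hS2 hS3 ?_
    by_cases hne' : H.V \ (M ∪ S ∪ B) = ∅
    · refine hfull _ B (insert (H.π x) C) false hne' ?_
      rw [hpot]; positivity
    refine MakerWins.breaker _ B hne' ?_
    intro T hT1 hT2
    apply ih _ _ (insert (H.π x) C)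
    · have : H.V \ (M ∪ S ∪ (B ∪ T)) ⊆ (H.V \ (M ∪ B)).erase x := by
        intro y hy
        simp only [Finset.mem_sdiff, Finset.mem_union, not_or, Finset.mem_erase] at hy ⊢
        refine ⟨fun h => hy.2.1.2 (h ▸ hxS), hy.1, hy.2.1.1, hy.2.2.1⟩
      have h4 := Finset.card_le_card this
      rw [Finset.card_erase_of_mem hx] at h4
      omega
    · intro y hy
      have hy' : y ∈ H.V \ (M ∪ S ∪ B) := by
        simp only [Finset.mem_sdiff, Finset.mem_union, not_or] at hy ⊢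
        tauto
      obtain ⟨h5, h6⟩ := hfree y hy'
      rw [Finset.mem_insert, not_or]
      exact ⟨h6.symm, h2 y h5⟩
    · have h4 := H.pot_kill hw0' B T
      have h5 : ∑ y ∈ T, H.wt (H.mw (1 + b) (insert (H.π x) C)) B y ≤
          T.card • (H.wt (H.mw (1 + b) C) B x + b * (1 + b) ^ H.J) := by
        apply Finset.sum_le_card_nsmul
        intro y hy
        obtain ⟨h5, h6⟩ := hfree y (hT1 hy)
        refine (H.wt_up (f := H.mw (1 + b) C) hK h6 ?_ ?_ B).trans
          (add_le_add_left (hmax y h5) _)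
        · intro e he hxe
          exact (H.mw_insert' he hxV hxe).le
        · intro e he
          by_cases hxe : x ∈ H.E e
          · rw [H.mw_insert hxe (h2 x hx)]
            have := H.mw_le hl C he
            nlinarith
          · rw [H.mw_insert' he hxV hxe]; linarith
      rw [nsmul_eq_mul] at h5
      have h6 : (T.card : ℝ) ≤ b := by exact_mod_cast hT2.le.trans (min_le_left _ _)
      have h7 : (T.card : ℝ) * (H.wt (H.mw (1 + b) C) B x + b * (1 + b) ^ H.J) ≤
          b * (H.wt (H.mw (1 + b) C) B x + b * (1 + b) ^ H.J) :=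
        mul_le_mul_of_nonneg_right h6 (by positivity)
      push_cast at h3
      nlinarith

theorem maker {W : Set (Finset α)} (hW : ∀ e ∈ H.F, H.E e ∈ W) {m b : ℕ} (hm : 1 ≤ m)
    (hr : H.r ≤ m) (h : (H.V.card : ℝ) * (b * (b * (1 + b) ^ H.J)) < H.F.card) :
    MakerWins H.V W m b ∅ ∅ true := by
  apply H.maker_aux hW hm hr H.V.card ∅ ∅ ∅ (by simp) (by simp)
  simpa [pot, mw] using h

end Sys

end Pool.Agent.Lib.MP_58ead2_co.G
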