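import Mathlib
import Pool.Agent.Lib.MP_58ead2_co.GFam
import Pool.Agent.Lib.MP_58ead2_co.GMaker
import Pool.Agent.Lib.MP_58ead2_co.GForcer

namespace Pool.Agent.Lib.MP_58ead2_co.G

open Filter

lemma quad_ev {ε : ℝ} (hε : 0 < ε) (B D : ℝ) :
    ∀ᶠ N : ℕ in atTop, B * √(Real.log N) + D < ε * √(Real.log N) ^ 2 := by
  have h : Tendsto (fun N : ℕ => √(Real.log N)) atTop atTop :=
    Real.tendsto_sqrt_atTop.comp (Real.tendsto_log_atTop.comp tendsto_natCast_atTop_atTop)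
  filter_upwards [h.eventually_ge_atTop ((|B| + |D| + 1) / ε), h.eventually_ge_atTop 1]
    with N h1 h2
  rw [div_le_iff₀ hε] at h1
  have := le_abs_self B
  have := le_abs_self D
  have := abs_nonneg B
  have := abs_nonneg D
  nlinarith

lemma count_ok {κ q r N : ℕ} (hκ : κ ≤ 2) (hq : 2 ≤ q) (hr : 1 ≤ r) (hN : 1 ≤ N) {Λ C : ℝ}
    (hΛ : 1 ≤ Λ) (hC : 0 ≤ C)
    (h : Real.log (64 * (C + 1)) + 2 * q + ((q : ℝ) + r) ^ 2 / r * Real.log Λ + 2 * (3 + 4 * q) <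
      κ * Real.log N) :
    ∃ u n : ℕ, 0 < u ∧ u ≤ q ∧ q ≤ u * r ∧ 4 * q ^ 3 * n ≤ N ∧
      (N : ℝ) ^ 2 * (C * Λ ^ (u * (q + r))) < ((q ^ 2 * n) ^ 2 * (n / q) ^ κ : ℕ) := by
  have h1 : (q + r - 1) / r * r ≤ q + r - 1 := Nat.div_mul_le_self _ _
  have h2 : q + r - 1 < (q + r - 1) / r * r + r := Nat.lt_div_mul_add (by omega)
  set u := (q + r - 1) / r with hu
  have hu0 : 0 < u := by
    rcases Nat.eq_zero_or_pos u with h | h
    · rw [h] at h2; omega
    · exact h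
  have huq : u ≤ q := by
    by_contra hc
    have : (q + 1) * r ≤ u * r := Nat.mul_le_mul_right r (by omega)
    have : q * 1 ≤ q * r := Nat.mul_le_mul_left q hr
    nlinarith [Nat.sub_add_cancel (show 1 ≤ q + r by omega)]
  refine ⟨u, N / (4 * q ^ 3), hu0, huq, by omega, Nat.mul_div_le _ _, ?_⟩
  have hq0 : (0 : ℝ) < q := by exact_mod_cast (by omega : 0 < q)
  have hr0 : (0 : ℝ) < r := by exact_mod_cast hr
  have hN0 : (0 : ℝ) < N := by exact_mod_cast hN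
  have hκ' : (κ : ℝ) ≤ 2 := by exact_mod_cast hκ
  have hκ0 : (0 : ℝ) ≤ κ := Nat.cast_nonneg κ
  have hlΛ : 0 ≤ Real.log Λ := Real.log_nonneg hΛ
  have hlC : 0 ≤ Real.log (64 * (C + 1)) := Real.log_nonneg (by linarith)
  have hlN : 0 ≤ Real.log N := Real.log_nonneg (by exact_mod_cast hN)
  have hqe : (q : ℝ) ≤ Real.exp q := by linarith [Real.add_one_le_exp (q : ℝ)]
  have h8 : (8 : ℝ) ≤ Real.exp 3 := by
    have := Real.add_one_le_exp (1 : ℝ)
    calc (8 : ℝ) = 2 ^ 3 := by norm_num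
      _ ≤ Real.exp 1 ^ 3 := pow_le_pow_left₀ (by norm_num) (by linarith) 3
      _ = Real.exp 3 := by rw [← Real.exp_nat_mul]; norm_num
  have h84 : 8 * (q : ℝ) ^ 4 ≤ Real.exp (3 + 4 * q) := by
    rw [Real.exp_add, show (4 : ℝ) * q = (4 : ℕ) * q by norm_num, Real.exp_nat_mul]
    exact mul_le_mul h8 (pow_le_pow_left₀ hq0.le hqe 4) (by positivity) (by positivity)
  have hJ0 : 0 ≤ ((q : ℝ) + r) ^ 2 / r * Real.log Λ := by positivity
  have hL : 3 + 4 * (q : ℝ) ≤ Real.log N := by nlinarith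
  set X : ℝ := N / (8 * q ^ 4) with hX
  have hX1 : Real.exp (Real.log N - (3 + 4 * q)) ≤ X := by
    rw [Real.exp_sub, Real.exp_log hN0]
    exact div_le_div_of_nonneg_left hN0.le (by positivity) h84
  have hX2 : 1 ≤ X := (Real.one_le_exp (by linarith)).trans hX1
  have hm : X ≤ (N / (4 * q ^ 3) / q : ℕ) := by
    rw [Nat.div_div_eq_div_mul]
    have e1 : N < N / (4 * q ^ 3 * q) * (4 * q ^ 3 * q) + 4 * q ^ 3 * q :=
      Nat.lt_div_mul_add (by positivity)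
    have e2 : (N : ℝ) < (N / (4 * q ^ 3 * q) : ℕ) * (4 * q ^ 3 * q) + 4 * q ^ 3 * q := by
      exact_mod_cast e1
    have e3 : (N : ℝ) = X * (8 * q ^ 4) := by rw [hX]; field_simp
    have e4 : (0 : ℝ) < 4 * q ^ 3 * q := by positivity
    have e5 : 2 * X * (4 * q ^ 3 * q) < (((N / (4 * q ^ 3 * q) : ℕ) : ℝ) + 1) * (4 * q ^ 3 * q) := by
      nlinarith
    have := lt_of_mul_lt_mul_right e5 e4.le
    linarith
  have hn : X * q ≤ (N / (4 * q ^ 3) : ℕ) := by
    have e1 : ((N / (4 * q ^ 3) / q : ℕ) : ℝ) * q ≤ (N / (4 * q ^ 3) : ℕ) := by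
      exact_mod_cast Nat.div_mul_le_self _ _
    exact (mul_le_mul_of_nonneg_right hm hq0.le).trans e1
  have hJ : ((u * (q + r) : ℕ) : ℝ) ≤ ((q : ℝ) + r) ^ 2 / r := by
    rw [le_div_iff₀ hr0]
    have e1 : u * r ≤ q + r := by omega
    have e2 : (u : ℝ) * r ≤ q + r := by exact_mod_cast e1
    push_cast
    nlinarith
  have hmain : 64 * (q : ℝ) ^ 2 * (C * Λ ^ (u * (q + r))) < X ^ κ := by
    have e1 : Λ ^ (u * (q + r)) ≤ Real.exp (((q : ℝ) + r) ^ 2 / r * Real.log Λ) := by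
      rw [← Real.exp_log (show 0 < Λ by linarith), ← Real.exp_nat_mul, Real.log_exp]
      exact Real.exp_le_exp.2 (mul_le_mul_of_nonneg_right hJ hlΛ)
    have e2 : (q : ℝ) ^ 2 ≤ Real.exp (2 * q) := by
      rw [show (2 : ℝ) * q = (2 : ℕ) * q by norm_num, Real.exp_nat_mul]
      exact pow_le_pow_left₀ hq0.le hqe 2
    have e3 : 64 * C ≤ Real.exp (Real.log (64 * (C + 1))) := by
      rw [Real.exp_log (by positivity)]; linarith
    calc 64 * (q : ℝ) ^ 2 * (C * Λ ^ (u * (q + r)))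
        = 64 * C * (q : ℝ) ^ 2 * Λ ^ (u * (q + r)) := by ring
      _ ≤ Real.exp (Real.log (64 * (C + 1))) * Real.exp (2 * q) *
            Real.exp (((q : ℝ) + r) ^ 2 / r * Real.log Λ) := by gcongr
      _ = Real.exp (Real.log (64 * (C + 1)) + 2 * q + ((q : ℝ) + r) ^ 2 / r * Real.log Λ) := by
          rw [Real.exp_add, Real.exp_add]
      _ < Real.exp (κ * (Real.log N - (3 + 4 * q))) := by
          apply Real.exp_lt_exp.2
          nlinarith
      _ = Real.exp (Real.log N - (3 + 4 * q)) ^ κ := Real.exp_nat_mul _ _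
      _ ≤ X ^ κ := pow_le_pow_left₀ (Real.exp_pos _).le hX1 κ
  have e3 : (N : ℝ) = X * (8 * q ^ 4) := by rw [hX]; field_simp
  push_cast [-Nat.cast_div]
  calc (N : ℝ) ^ 2 * (C * Λ ^ (u * (q + r)))
      = (q ^ 2 * (X * q)) ^ 2 * (64 * (q : ℝ) ^ 2 * (C * Λ ^ (u * (q + r)))) := by
        rw [e3]; ring
    _ < (q ^ 2 * (X * q)) ^ 2 * X ^ κ := mul_lt_mul_of_pos_left hmain (by positivity)
    _ ≤ _ := by gcongr

lemma conj_eq (par : Bool) {c : ℝ} (hc : 1 < c) (N : ℕ) :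
    conj par c N = √(2 * ((if par = true then 2 else 1 : ℕ) : ℝ) / Real.log c) *
      √(Real.log N) := by
  have hl := Real.log_pos hc
  rw [← Real.sqrt_mul (by positivity)]
  unfold conj Real.logb
  split_ifs
  · rw [show (2 : ℝ) * ((2 : ℕ) : ℝ) / Real.log c * Real.log N =
      2 ^ 2 * (Real.log N / Real.log c) by push_cast; ring,
      Real.sqrt_mul (by positivity), Real.sqrt_sq (by norm_num)]
  · congr 1
    push_cast; ring

lemma asym (par : Bool) {r : ℕ} (hr : 1 ≤ r) {Λ C c : ℝ} (hΛ : 1 ≤ Λ) (hC : 0 ≤ C) (hc : 1 < c)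
    (h : 2 * Real.log Λ < r * Real.log c) :
    ∃ δ : ℝ, 0 < δ ∧ ∀ᶠ N : ℕ in atTop, ∃ q : ℕ, 2 ≤ q ∧ (1 + δ) * conj par c N ≤ q ∧
      ∃ u n : ℕ, 0 < u ∧ u ≤ q ∧ q ≤ u * r ∧ 4 * q ^ 3 * n ≤ N ∧
        (N : ℝ) ^ 2 * (C * Λ ^ (u * (q + r))) <
          ((q ^ 2 * n) ^ 2 * (n / q) ^ (if par = true then 2 else 1) : ℕ) := by
  have hl := Real.log_pos hc
  have hr0 : (0 : ℝ) < r := by exact_mod_cast hr
  have hlΛ : 0 ≤ Real.log Λ := Real.log_nonneg hΛ
  set κ : ℕ := if par = true then 2 else 1 with hκ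
  have hκ1 : 1 ≤ κ := by rw [hκ]; split_ifs <;> norm_num
  have hκ2 : κ ≤ 2 := by rw [hκ]; split_ifs <;> norm_num
  have hκ0 : (0 : ℝ) < κ := by exact_mod_cast hκ1
  set θ : ℝ := 2 * Real.log Λ / (r * Real.log c) with hθ
  have hθ0 : 0 ≤ θ := by positivity
  have hθ1 : θ < 1 := by rw [hθ, div_lt_one (by positivity)]; exact h
  set δ : ℝ := (1 - θ) / 3 with hδ
  have hδ0 : 0 < δ := by rw [hδ]; linarith
  have hδ1 : (1 + δ) ^ 2 * θ < 1 := by
    have e1 : (1 + δ) ^ 2 ≤ 2 - θ := by rw [hδ]; nlinarith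
    nlinarith
  refine ⟨δ, hδ0, ?_⟩
  set a : ℝ := (1 + δ) * √(2 * (κ : ℝ) / Real.log c) with ha
  have ha0 : 0 ≤ a := by positivity
  have ha2 : a ^ 2 * (Real.log Λ / r) = κ * ((1 + δ) ^ 2 * θ) := by
    rw [ha, mul_pow, Real.sq_sqrt (by positivity), hθ]
    field_simp
  have hε : 0 < (κ : ℝ) * (1 - (1 + δ) ^ 2 * θ) := mul_pos hκ0 (by linarith)
  filter_upwards [quad_ev hε (10 * a + 2 * a * (3 + r) * (Real.log Λ / r))
    (Real.log (64 * (C + 1)) + 36 + (3 + r) ^ 2 * (Real.log Λ / r)),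
    eventually_ge_atTop 1] with N h1 hN
  have hlN : 0 ≤ Real.log N := Real.log_nonneg (by exact_mod_cast hN)
  set s : ℝ := √(Real.log N) with hs
  have hs0 : 0 ≤ s := Real.sqrt_nonneg _
  have hs2 : s ^ 2 = Real.log N := Real.sq_sqrt hlN
  have hq1 : a * s ≤ ((⌈a * s⌉₊ + 2 : ℕ) : ℝ) := by
    push_cast; linarith [Nat.le_ceil (a * s)]
  have hq2 : ((⌈a * s⌉₊ + 2 : ℕ) : ℝ) ≤ a * s + 3 := by
    push_cast; linarith [Nat.ceil_lt_add_one (mul_nonneg ha0 hs0)]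
  refine ⟨⌈a * s⌉₊ + 2, by omega, ?_, ?_⟩
  · rw [conj_eq par hc, ← mul_assoc]
    exact hq1
  · apply count_ok hκ2 (by omega) hr hN hΛ hC
    set q : ℝ := ((⌈a * s⌉₊ + 2 : ℕ) : ℝ)
    have hq0 : 0 ≤ q := (mul_nonneg ha0 hs0).trans hq1
    have e1 : (q + r) ^ 2 ≤ (a * s + (3 + r)) ^ 2 :=
      pow_le_pow_left₀ (by positivity) (by linarith) 2
    have e2 : (q + r) ^ 2 / r * Real.log Λ ≤ (a * s + (3 + r)) ^ 2 * (Real.log Λ / r) := by
      rw [div_mul_eq_mul_div, mul_div_assoc]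
      exact mul_le_mul_of_nonneg_right e1 (by positivity)
    have e3 : (a * s + (3 + r)) ^ 2 * (Real.log Λ / r) =
        κ * ((1 + δ) ^ 2 * θ) * s ^ 2 + 2 * a * (3 + r) * (Real.log Λ / r) * s +
          (3 + r) ^ 2 * (Real.log Λ / r) := by
      rw [← ha2]; ring
    rw [← hs2]
    nlinarith

lemma MakerWins.exists_mem {α : Type} [DecidableEq α] {V : Finset α} {W : Set (Finset α)}
    {m b : ℕ} {M B : Finset α} {t : Bool} (h : MakerWins V W m b M B t) : W.Nonempty := by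
  induction h with
  | full M B t _ hA => obtain ⟨A, hA, -⟩ := hA; exact ⟨A, hA⟩
  | maker M B S _ _ _ _ ih => exact ih
  | breaker M B _ _ ih =>
    obtain ⟨S, h1, h2⟩ := Finset.exists_subset_card_eq (s := V \ (M ∪ B))
      (min_le_right b (V \ (M ∪ B)).card)
    exact ih S h1 h2

lemma ForcerWins.exists_mem {α : Type} [DecidableEq α] {V : Finset α} {W : Set (Finset α)}
    {a f : ℕ} {P Q : Finset α} {t : Bool} (h : ForcerWins V W a f P Q t) : W.Nonempty := by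
  induction h with
  | full P Q t _ hA => obtain ⟨A, hA, -⟩ := hA; exact ⟨A, hA⟩
  | forcer P Q S _ _ _ _ ih => exact ih
  | avoider P Q _ _ ih =>
    obtain ⟨S, h1, h2⟩ := Finset.exists_subset_card_eq (s := V \ (P ∪ Q))
      (min_le_right a (V \ (P ∪ Q)).card)
    exact ih S h1 h2

theorem achieve_main (m b : ℕ) (h : (b + 1) ^ 2 * m ^ m < (m + b) ^ m) (par : Bool) :
    ∃ δ : ℝ, 0 < δ ∧ ∀ᶠ N : ℕ in atTop,
      (1 + δ) * conj par (((m : ℝ) + b) / m) N ≤ achieve par N m b := by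
  have hm : 1 ≤ m := by
    rcases Nat.eq_zero_or_pos m with h0 | h0
    · subst h0; simp at h
    · exact h0
  have hb : 1 ≤ b := by
    rcases Nat.eq_zero_or_pos b with h0 | h0
    · subst h0; simp at h
    · exact h0
  have hm0 : (0 : ℝ) < m := by exact_mod_cast hm
  have hb0 : (0 : ℝ) < b := by exact_mod_cast hb
  have hc : (1 : ℝ) < ((m : ℝ) + b) / m := by rw [lt_div_iff₀ hm0]; linarith
  have h' : (1 + (b : ℝ)) ^ 2 < (((m : ℝ) + b) / m) ^ m := by
    rw [div_pow, lt_div_iff₀ (by positivity), add_comm (1 : ℝ)]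
    exact_mod_cast h
  have hlog : 2 * Real.log (1 + b) < m * Real.log (((m : ℝ) + b) / m) := by
    have := Real.log_lt_log (by positivity) h'
    rw [Real.log_pow, Real.log_pow] at this
    exact_mod_cast this
  obtain ⟨δ, hδ, hev⟩ := asym par hm (Λ := 1 + b) (C := b * b) (by linarith) (by positivity)
    hc hlog
  refine ⟨δ, hδ, hev.mono ?_⟩
  rintro N ⟨q, hq, h1, u, n, hu, huq, hur, hN, h2⟩
  refine h1.trans (Nat.cast_le.2 (le_csSup ⟨N, fun q hq => ?_⟩ ⟨hq, ?_⟩))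
  · obtain ⟨A, hA⟩ := hq.2.exists_mem
    exact lattices_bound hA
  · apply (fam par q m u n N hq hu huq hur hN).maker (fam_W par q m u n N hq hu huq hur hN) hm
      le_rfl
    refine lt_of_le_of_lt (le_of_eq ?_)
      (h2.trans_le (Nat.cast_le.2 (fam_card par q m u n N hq hu huq hur hN)))
    simp only [fam, card_board]
    push_cast
    ring

theorem avoid_gen (a f r : ℕ) (β : ℝ) (hβ : 0 < β) (hr : 1 ≤ r) (hra : r ≤ a) (hf : 1 ≤ f)
    (hβ' : (f : ℝ) + r - 1 ≤ β * (a - r + 1))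
    (h : 2 * Real.log (gg β r) < r * Real.log (((a : ℝ) + f) / a)) (par t : Bool) :
    ∃ δ : ℝ, 0 < δ ∧ ∀ᶠ N : ℕ in atTop,
      (1 + δ) * conj par (((a : ℝ) + f) / a) N ≤ avoid par t N a f := by
  have ha0 : (0 : ℝ) < a := by exact_mod_cast (by omega : 0 < a)
  have hf0 : (0 : ℝ) < f := by exact_mod_cast hf
  have hc : (1 : ℝ) < ((a : ℝ) + f) / a := by rw [lt_div_iff₀ ha0]; linarith
  obtain ⟨δ, hδ, hev⟩ := asym par hr (Λ := gg β r) (C := a * (β * f) + f) (one_le_gg hβ.le r)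
    (by positivity) hc h
  refine ⟨δ, hδ, hev.mono ?_⟩
  rintro N ⟨q, hq, h1, u, n, hu, huq, hur, hN, h2⟩
  refine h1.trans (Nat.cast_le.2 (le_csSup ⟨N, fun q hq => ?_⟩ ⟨hq, ?_⟩))
  · obtain ⟨A, hA⟩ := hq.2.exists_mem
    exact lattices_bound hA
  · apply (fam par q r u n N hq hu huq hur hN).forcer (fam_W par q r u n N hq hu huq hur hN) hβ
      hr hra hβ'
    refine lt_of_le_of_lt (le_of_eq ?_)
      (h2.trans_le (Nat.cast_le.2 (fam_card par q r u n N hq hu huq hur hN)))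
    simp only [fam, card_board]
    push_cast
    ring

lemma log_gg_le {β : ℝ} (hβ : 0 ≤ β) (i : ℕ) :
    Real.log (gg β i) ≤ β * ∑ j ∈ Finset.range i, (1 : ℝ) / (j + 1) := by
  unfold gg
  rw [Real.log_prod (fun j _ => by positivity), Finset.mul_sum]
  apply Finset.sum_le_sum
  intro j _
  have := Real.log_le_sub_one_of_pos (show 0 < 1 + β / ((j : ℝ) + 1) by positivity)
  rw [mul_one_div]
  linarith

theorem avoid_main (a f : ℕ) (hf : 64 ≤ f) (hfa : f ≤ a) (par t : Bool) :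
    ∃ δ : ℝ, 0 < δ ∧ ∀ᶠ N : ℕ in atTop,
      (1 + δ) * conj par (((a : ℝ) + f) / a) N ≤ avoid par t N a f := by
  have hf' : (64 : ℝ) ≤ f := by exact_mod_cast hf
  have hfa' : (f : ℝ) ≤ a := by exact_mod_cast hfa
  have ha0 : (0 : ℝ) < a := by linarith
  have hx0 : (0 : ℝ) < f / a := by positivity
  have hx1 : (f : ℝ) / a ≤ 1 := by rw [div_le_one ha0]; exact hfa'
  apply avoid_gen a f 20 (83 / 45 * (f / a)) (by positivity) (by norm_num) (by omega) (by omega)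
  · have : 83 / 45 * ((f : ℝ) / a) * (a - (20 : ℕ) + 1) = 83 / 45 * (f - 19 * (f / a)) := by
      push_cast; field_simp; ring
    rw [this]
    have e : (f : ℝ) / a ≤ f / 64 := div_le_div_of_nonneg_left (by linarith) (by norm_num)
      (by linarith)
    push_cast
    linarith
  · have h1 := log_gg_le (β := 83 / 45 * ((f : ℝ) / a)) (by positivity) 20
    have h2 : ∑ j ∈ Finset.range 20, (1 : ℝ) / (j + 1) ≤ 3598 / 1000 := by
      simp only [Finset.sum_range_succ, Finset.sum_range_zero]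
      norm_num
    have h3 := Real.le_log_one_add_of_nonneg hx0.le
    have h4 : 2 / 3 * ((f : ℝ) / a) ≤ 2 * (f / a) / (f / a + 2) := by
      rw [le_div_iff₀ (by positivity)]
      nlinarith
    have h5 : ((a : ℝ) + f) / a = 1 + f / a := by field_simp
    have h6 := mul_le_mul_of_nonneg_left h2
      (show 0 ≤ 83 / 45 * ((f : ℝ) / a) by positivity)
    rw [h5]
    push_cast
    linarith

end Pool.Agent.Lib.MP_58ead2_co.G
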