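import Mathlib
import Pool.Agent.Lib.MP_58ead2_co.Defs

namespace Pool.Agent.Lib.MP_58ead2_co

open Finset

section ES
variable {α : Type} [DecidableEq α]

/-- potential -/
noncomputable def pot (F : Finset (Finset α)) (l : ℝ) (M B : Finset α) : ℝ :=
  ∑ A ∈ F.filter (fun A => Disjoint A B), l ^ (A ∩ M).card

/-- weight of a point -/
noncomputable def wt (F : Finset (Finset α)) (l : ℝ) (M B : Finset α) (x : α) : ℝ :=
  ∑ A ∈ F.filter (fun A => Disjoint A B), if x ∈ A then l ^ (A ∩ M).card else 0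

lemma pow_le_aux {l : ℝ} (h1 : 1 ≤ l) (h2 : l ^ 2 ≤ 2) {j : ℕ} (hj : j ≤ 2) :
    l ^ j ≤ 1 + (j : ℝ) / 2 := by
  interval_cases j
  · simp
  · simp; nlinarith
  · push_cast; linarith

lemma pot_maker (F : Finset (Finset α)) {l : ℝ} (h1 : 1 ≤ l) (h2 : l ^ 2 ≤ 2) (M B S : Finset α)
    (hS : S.card ≤ 2) :
    pot F l (M ∪ S) B ≤ pot F l M B + (∑ x ∈ S, wt F l M B x) / 2 := by
  unfold pot wt
  rw [Finset.sum_comm, Finset.sum_div, ← Finset.sum_add_distrib]
  apply Finset.sum_le_sum
  intro A _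
  have hc : (A ∩ (M ∪ S)).card ≤ (A ∩ M).card + (S.filter (· ∈ A)).card := by
    rw [Finset.inter_union_distrib_left]
    refine (Finset.card_union_le _ _).trans ?_
    have : A ∩ S = S.filter (· ∈ A) := by ext x; simp [and_comm]
    rw [this]
  have hj : (S.filter (· ∈ A)).card ≤ 2 := (Finset.card_filter_le _ _).trans hS
  have hp : 0 < l ^ (A ∩ M).card := by positivity
  rw [← Finset.sum_filter, Finset.sum_const, nsmul_eq_mul]
  calc l ^ (A ∩ (M ∪ S)).card ≤ l ^ ((A ∩ M).card + (S.filter (· ∈ A)).card) :=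
        pow_le_pow_right₀ h1 hc
    _ = l ^ (A ∩ M).card * l ^ (S.filter (· ∈ A)).card := pow_add _ _ _
    _ ≤ l ^ (A ∩ M).card * (1 + ((S.filter (· ∈ A)).card : ℝ) / 2) :=
        mul_le_mul_of_nonneg_left (pow_le_aux h1 h2 hj) hp.le
    _ = _ := by ring

lemma pot_breaker (F : Finset (Finset α)) (l : ℝ) (M B : Finset α) (y : α) :
    pot F l M (B ∪ {y}) + wt F l M B y = pot F l M B := by
  unfold pot wt
  have : F.filter (fun A => Disjoint A (B ∪ {y})) =
      (F.filter (fun A => Disjoint A B)).filter (fun A => y ∉ A) := by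
    ext A; simp only [Finset.mem_filter, Finset.disjoint_union_right, Finset.disjoint_singleton_right, and_assoc]
  rw [this, Finset.sum_filter, ← Finset.sum_add_distrib]
  apply Finset.sum_congr rfl
  intro A _
  by_cases h : y ∈ A <;> simp [h]

lemma wt_mono (F : Finset (Finset α)) {l : ℝ} (h1 : 1 ≤ l) (M B : Finset α) (y x : α) :
    wt F l M (B ∪ {y}) x ≤ wt F l M B x := by
  unfold wt
  apply Finset.sum_le_sum_of_subset_of_nonneg
  · intro A
    simp only [Finset.mem_filter, Finset.disjoint_union_right]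
    tauto
  · intro A _ _
    split_ifs
    · positivity
    · exact le_rfl

lemma wt_nonneg (F : Finset (Finset α)) {l : ℝ} (h1 : 1 ≤ l) (M B : Finset α) (x : α) :
    0 ≤ wt F l M B x := by
  unfold wt
  apply Finset.sum_nonneg
  intro A _
  split_ifs
  · positivity
  · exact le_rfl

lemma es_main {V : Finset α} {W : Set (Finset α)} (F : Finset (Finset α)) (n : ℕ)
    (hF : ∀ A ∈ W, A ∈ F ∧ n ≤ A.card) {l : ℝ} (h1 : 1 ≤ l) (h2 : l ^ 2 ≤ 2)
    {M B : Finset α} {t : Bool} (h : MakerWins V W 2 1 M B t) :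
    Disjoint M B → ∃ S, S ⊆ V \ (M ∪ B) ∧ S.card ≤ (if t then 2 else 0) ∧
      l ^ n ≤ pot F l (M ∪ S) B := by
  induction h with
  | full M B t _ hA =>
    intro hd
    obtain ⟨A, hAW, hAM⟩ := hA
    refine ⟨∅, Finset.empty_subset _, by simp, ?_⟩
    rw [Finset.union_empty]
    have hmem : A ∈ F.filter (fun A => Disjoint A B) :=
      Finset.mem_filter.2 ⟨(hF A hAW).1, Finset.disjoint_of_subset_left hAM hd⟩
    calc l ^ n ≤ l ^ (A ∩ M).card := by
          rw [Finset.inter_eq_left.2 hAM]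
          exact pow_le_pow_right₀ h1 (hF A hAW).2
      _ ≤ _ := Finset.single_le_sum (f := fun A => l ^ (A ∩ M).card)
          (fun A _ => by positivity) hmem
  | maker M B S _ hS hc _ ih =>
    intro hd
    have hd' : Disjoint (M ∪ S) B := by
      rw [Finset.disjoint_union_left]
      refine ⟨hd, Finset.disjoint_left.2 fun x hx hxB => ?_⟩
      have := hS hx
      simp [hxB] at this
    obtain ⟨S', -, h4, h5⟩ := ih hd'
    simp only [Bool.false_eq_true, if_false, Nat.le_zero, Finset.card_eq_zero] at h4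
    subst h4
    rw [Finset.union_empty] at h5
    exact ⟨S, hS, by simp [hc], h5⟩
  | breaker M B hne _ ih =>
    intro hd
    obtain ⟨y, hy, hmax⟩ := Finset.exists_max_image (V \ (M ∪ B)) (wt F l M B)
      (Finset.nonempty_iff_ne_empty.2 hne)
    have hpos : 1 ≤ (V \ (M ∪ B)).card := Finset.card_pos.2 ⟨y, hy⟩
    have hd' : Disjoint M (B ∪ {y}) := by
      rw [Finset.disjoint_union_right]
      refine ⟨hd, Finset.disjoint_singleton_right.2 fun hyM => ?_⟩
      simp [hyM] at hy
    obtain ⟨S, hS, hc, h5⟩ := ih {y} (by simpa using hy) (by simp [min_eq_left hpos]) hd'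
    simp only [if_true] at hc
    refine ⟨∅, Finset.empty_subset _, by simp, ?_⟩
    rw [Finset.union_empty]
    have h6 := pot_maker F h1 h2 M (B ∪ {y}) S hc
    have h7 := pot_breaker F l M B y
    have h8 : ∑ x ∈ S, wt F l M (B ∪ {y}) x ≤ S.card • wt F l M B y := by
      apply Finset.sum_le_card_nsmul
      intro x hx
      refine (wt_mono F h1 M B y x).trans (hmax x ?_)
      have := hS hx
      simp only [Finset.mem_sdiff, Finset.mem_union, not_or] at this ⊢
      tauto
    have h9 := wt_nonneg F h1 M B y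
    rw [nsmul_eq_mul] at h8
    have h10 : (S.card : ℝ) ≤ 2 := by exact_mod_cast hc
    nlinarith

lemma es_start {V : Finset α} {W : Set (Finset α)} (F : Finset (Finset α)) (n : ℕ)
    (hF : ∀ A ∈ W, A ∈ F ∧ n ≤ A.card) {l : ℝ} (h1 : 1 ≤ l) (h2 : l ^ 2 ≤ 2)
    (h : MakerWins V W 2 1 ∅ ∅ true) : l ^ n ≤ 2 * F.card := by
  obtain ⟨S, -, hc, h5⟩ := es_main F n hF h1 h2 h (by simp)
  simp only [if_true] at hc
  refine h5.trans ?_
  unfold pot
  calc ∑ A ∈ F.filter (fun A => Disjoint A ∅), l ^ (A ∩ (∅ ∪ S)).card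
      ≤ (F.filter (fun A => Disjoint A ∅)).card • (2 : ℝ) := by
        apply Finset.sum_le_card_nsmul
        intro A _
        refine (pow_le_pow_right₀ h1 ?_).trans h2
        refine (Finset.card_le_card ?_).trans hc
        intro x hx
        simp at hx
        exact hx.2
    _ ≤ 2 * F.card := by
        rw [nsmul_eq_mul, mul_comm]
        have : ((F.filter (fun A => Disjoint A ∅)).card : ℝ) ≤ F.card := by
          exact_mod_cast Finset.card_filter_le _ _
        linarith

end ES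

lemma card_board (N : ℕ) : (board N).card = N ^ 2 := by
  simp [board, sq]

lemma maker_bound {N q : ℕ} (hq : 2 ≤ q)
    (h : MakerWins (board N) (parallelograms N q) 2 1 ∅ ∅ true) :
    (√2 : ℝ) ^ (q ^ 2) ≤ 2 * (N : ℝ) ^ 6 := by
  classical
  set F : Finset (Finset (ℤ × ℤ)) := (board N ×ˢ board N ×ˢ board N).image (fun z =>
    (Finset.range q ×ˢ Finset.range q).image
      (fun p : ℕ × ℕ => z.1 + p.1 • (z.2.1 - z.1) + p.2 • (z.2.2 - z.1))) with hFdef
  have hF : ∀ A ∈ parallelograms N q, A ∈ F ∧ q ^ 2 ≤ A.card := by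
    rintro A ⟨hA, u, v, w, hli, rfl⟩
    constructor
    · rw [hFdef, Finset.mem_image]
      refine ⟨(u, u + v, u + w), ?_, by simp⟩
      simp only [Finset.mem_product]
      refine ⟨hA ?_, hA ?_, hA ?_⟩
      · exact Finset.mem_image.2 ⟨(0, 0), by simp; omega, by simp⟩
      · exact Finset.mem_image.2 ⟨(1, 0), by simp; omega, by simp⟩
      · exact Finset.mem_image.2 ⟨(0, 1), by simp; omega, by simp⟩
    · rw [Finset.card_image_of_injective]
      · simp [sq]
      · intro p p' hp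
        have h0 : ((p.1 : ℤ) - p'.1) • v + ((p.2 : ℤ) - p'.2) • w = 0 := by
          simp only at hp
          have : u + p.1 • v + p.2 • w - (u + p'.1 • v + p'.2 • w) = 0 := sub_eq_zero.2 hp
          rw [← this]
          simp only [sub_smul, natCast_zsmul]
          abel
        obtain ⟨e1, e2⟩ := (LinearIndependent.pair_iff.1 hli) _ _ h0
        exact Prod.ext (by omega) (by omega)
  have h1 : (1 : ℝ) ≤ √2 := Real.one_le_sqrt.2 (by norm_num)
  have h2 : (√2 : ℝ) ^ 2 ≤ 2 := by rw [Real.sq_sqrt (by norm_num)]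
  refine (es_start F (q ^ 2) hF h1 h2 h).trans ?_
  have : F.card ≤ N ^ 6 := by
    refine Finset.card_image_le.trans ?_
    simp only [Finset.card_product, card_board]
    exact le_of_eq (by ring)
  have : (F.card : ℝ) ≤ (N : ℝ) ^ 6 := by exact_mod_cast this
  linarith

lemma achievement_sq_le {N : ℕ} (hN : 1 ≤ N) :
    ((achievementNumber N 2 1 : ℕ) : ℝ) ^ 2 ≤ 12 * Real.logb 2 N + 2 := by
  have hlog : 0 ≤ Real.logb 2 N := Real.logb_nonneg (by norm_num) (by exact_mod_cast hN)
  have key : ∀ q : ℕ, 2 ≤ q → MakerWins (board N) (parallelograms N q) 2 1 ∅ ∅ true →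
      (q : ℝ) ^ 2 ≤ 12 * Real.logb 2 N + 2 := by
    intro q hq h
    have hb := maker_bound hq h
    have hNpos : (0 : ℝ) < N := by exact_mod_cast hN
    have h1 := Real.logb_le_logb_of_le (b := 2) (by norm_num) (by positivity) hb
    rw [Real.logb_pow, Real.logb_mul (by norm_num) (by positivity), Real.logb_pow,
      Real.logb_self_eq_one (by norm_num)] at h1
    have h2 : Real.logb 2 (√2) = 1 / 2 := by
      rw [Real.sqrt_eq_rpow, Real.logb_rpow (by norm_num) (by norm_num)]
    rw [h2] at h1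
    push_cast at h1
    linarith
  unfold achievementNumber
  set s := {q : ℕ | 2 ≤ q ∧ MakerWins (board N) (parallelograms N q) 2 1 ∅ ∅ true}
  by_cases hne : s.Nonempty
  · have hbdd : BddAbove s := by
      refine ⟨⌈12 * Real.logb 2 N + 2⌉₊, fun q hq => ?_⟩
      have := key q hq.1 hq.2
      have h2 : (2 : ℝ) ≤ q := by exact_mod_cast hq.1
      have h3 : (q : ℝ) ≤ 12 * Real.logb 2 N + 2 := by nlinarith
      exact_mod_cast h3.trans (Nat.le_ceil _)
    have := Nat.sSup_mem hne hbdd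
    exact key _ this.1 this.2
  · rw [Set.not_nonempty_iff_eq_empty.1 hne]
    simp
    linarith

theorem main : ¬ ∃ ε : ℕ → ℝ, Filter.Tendsto ε Filter.atTop (nhds 0) ∧
    ∀ᶠ N : ℕ in Filter.atTop, (achievementNumber N 2 1 : ℤ) =
      ⌊2 * √(Real.logb (3 / 2) N + 2 * Real.logb 2 N) + ε N⌋ := by
  rintro ⟨ε, hε, h⟩
  have h1 : ∀ᶠ N : ℕ in Filter.atTop, -1 < ε N :=
    hε.eventually (lt_mem_nhds (by norm_num))
  have h2 : ∀ᶠ N : ℕ in Filter.atTop, (60 : ℝ) ≤ Real.logb 2 N :=
    ((Real.tendsto_logb_atTop (b := 2) (by norm_num)).comp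
      tendsto_natCast_atTop_atTop).eventually_ge_atTop 60
  obtain ⟨N, ⟨⟨e1, e2⟩, e3⟩, e4⟩ := (((h.and h1).and h2).and (Filter.eventually_ge_atTop 1)).exists
  have hA := achievement_sq_le e4
  set a : ℝ := ((achievementNumber N 2 1 : ℕ) : ℝ) with ha
  set x := Real.logb 2 N with hx
  have ha0 : 0 ≤ a := by positivity
  have hfl := Int.lt_floor_add_one (2 * √(Real.logb (3 / 2) N + 2 * x) + ε N)
  rw [← e1] at hfl
  push_cast at hfl
  rw [← ha] at hfl
  have hl : 3 / 2 * x ≤ Real.logb (3 / 2) N := by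
    have hN1 : (1 : ℝ) ≤ N := by exact_mod_cast e4
    have hlN : 0 ≤ Real.log N := Real.log_nonneg hN1
    have l2 : 0 < Real.log 2 := Real.log_pos (by norm_num)
    have l3 : 0 < Real.log (3 / 2) := Real.log_pos (by norm_num)
    have l4 : 3 * Real.log (3 / 2) ≤ 2 * Real.log 2 := by
      have := Real.log_le_log (x := (3 / 2 : ℝ) ^ 3) (y := (2 : ℝ) ^ 2) (by norm_num) (by norm_num)
      rw [Real.log_pow, Real.log_pow] at this
      exact_mod_cast this
    rw [hx, Real.logb, Real.logb, mul_div_assoc', div_le_div_iff₀ l2 l3]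
    nlinarith
  set y := √(Real.logb (3 / 2) N + 2 * x) with hy
  have hy0 : 0 ≤ y := Real.sqrt_nonneg _
  have hy2 : y ^ 2 = Real.logb (3 / 2) N + 2 * x := Real.sq_sqrt (by linarith)
  have g1 : 2 * y < a + 2 := by linarith
  have g2 : 14 * x < (a + 2) ^ 2 := by nlinarith
  have g3 : 2 * x - 6 < 4 * a := by nlinarith
  nlinarith

end Pool.Agent.Lib.MP_58ead2_co
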